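import Pool.Agent.Lib.MP_0ccce1_co.Core

set_option autoImplicit false

/-! Asymptotic evaluation. -/

namespace Pool.Agent.Lib.MP_0ccce1_co

open Filter Topology

lemma arsinh_step {τ x : ℝ} (hτ : 0 < τ) (hx : 0 ≤ x) :
    Real.arsinh ((x + 1) / τ) - Real.arsinh (x / τ) ≤ 1 / √(x ^ 2 + τ ^ 2) := by
  have hderiv : ∀ y : ℝ, HasDerivAt (fun y => Real.arsinh (y / τ)) (1 / √(y ^ 2 + τ ^ 2)) y := by
    intro y
    have h1 : HasDerivAt (fun y : ℝ => y / τ) (1 / τ) y := by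
      simpa using (hasDerivAt_id y).div_const τ
    have h2 := h1.arsinh
    convert h2 using 1
    rw [smul_eq_mul]
    have h3 : 1 + (y / τ) ^ 2 = (y ^ 2 + τ ^ 2) / τ ^ 2 := by field_simp; ring
    rw [h3, Real.sqrt_div (by positivity), Real.sqrt_sq hτ.le]
    have h4 : 0 < √(y ^ 2 + τ ^ 2) := Real.sqrt_pos.2 (by positivity)
    field_simp
  obtain ⟨c, hc, hc2⟩ := exists_hasDerivAt_eq_slope (fun y => Real.arsinh (y / τ))
    (fun y => 1 / √(y ^ 2 + τ ^ 2)) (show x < x + 1 by linarith)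
    (fun y _ => (hderiv y).continuousAt.continuousWithinAt) (fun y _ => hderiv y)
  have h5 : x + 1 - x = 1 := by ring
  rw [h5, div_one] at hc2
  rw [← hc2]
  have hpos : 0 < √(x ^ 2 + τ ^ 2) := Real.sqrt_pos.2 (by positivity)
  gcongr
  exact hc.1.le

lemma arsinh_sum {τ : ℝ} (hτ : 0 < τ) (J : ℕ) :
    Real.arsinh (((J : ℝ) + 1) / τ) - Real.arsinh (1 / τ) ≤
      ∑ b ∈ Finset.range J, 1 / √(((b : ℝ) + 1) ^ 2 + τ ^ 2) := by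
  induction J with
  | zero => simp
  | succ J ih =>
    rw [Finset.sum_range_succ]
    have := arsinh_step (x := (J : ℝ) + 1) hτ (by positivity)
    push_cast
    linarith

lemma prod_le_exp (n : ℕ) (a : ℕ → ℝ) (ha : ∀ i, a i ≤ 1) :
    ∏ b ∈ Finset.range n, (1 - a b) ≤ Real.exp (-∑ b ∈ Finset.range n, a b) := by
  rw [← Finset.sum_neg_distrib, Real.exp_sum]
  apply Finset.prod_le_prod
  · intro i _; linarith [ha i]
  · intro i _; exact Real.one_sub_le_exp_neg (a i)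

lemma exp_neg_arsinh {t : ℝ} (h0 : 0 < t) (h1 : t < 1) :
    Real.exp (-Real.arsinh (√(1 - t ^ 2) / t)) = (1 - √(1 - t ^ 2)) / t := by
  have h2 : 0 < 1 - t ^ 2 := by nlinarith
  rw [← Real.arsinh_neg, Real.exp_arsinh]
  have h3 : 1 + (-(√(1 - t ^ 2) / t)) ^ 2 = (1 / t) ^ 2 := by
    rw [neg_sq, div_pow, Real.sq_sqrt h2.le]
    field_simp
    ring
  rw [h3, Real.sqrt_sq (by positivity)]
  ring

lemma arsinh_le_self {x : ℝ} (hx : 0 ≤ x) : Real.arsinh x ≤ x := by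
  apply Real.sinh_le_sinh.1
  rw [Real.sinh_arsinh]
  exact Real.self_le_sinh_iff.2 hx

/-- The auxiliary constant. -/
noncomputable def cq (t : ℝ) (q : ℕ) : ℝ :=
  (1 - 2 * (1 / (q : ℝ))) / (1 / (1 - 1 / (q : ℝ)) + 1 / t * (1 / (q : ℝ)) ^ 2)

lemma cq_tendsto (t : ℝ) : Tendsto (cq t) atTop (𝓝 1) := by
  have h0 : Tendsto (fun q : ℕ => 1 / (q : ℝ)) atTop (𝓝 0) := tendsto_one_div_atTop_nhds_zero_nat
  have h1 : Tendsto (fun q : ℕ => 1 - 2 * (1 / (q : ℝ))) atTop (𝓝 (1 - 2 * 0)) :=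
    tendsto_const_nhds.sub (h0.const_mul 2)
  have h2 : Tendsto (fun q : ℕ => 1 / (1 - 1 / (q : ℝ)) + 1 / t * (1 / (q : ℝ)) ^ 2) atTop
      (𝓝 (1 / (1 - 0) + 1 / t * 0 ^ 2)) := by
    apply Tendsto.add
    · exact tendsto_const_nhds.div (tendsto_const_nhds.sub h0) (by norm_num)
    · exact (h0.pow 2).const_mul _
  have h3 : Tendsto (cq t) atTop (𝓝 ((1 - 2 * 0) / (1 / (1 - 0) + 1 / t * 0 ^ 2))) :=
    h1.div h2 (by norm_num)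
  have e : ((1 : ℝ) - 2 * 0) / (1 / (1 - 0) + 1 / t * 0 ^ 2) = 1 := by norm_num
  rwa [e] at h3

/-- Lower bound for the hit probability. -/
lemma lam_lower {q : ℕ} (hq : 3 ≤ q) {t : ℝ} (ht : 0 < t) {b s : ℕ}
    (hs : 2 * (s : ℝ) ≤ t ^ 2 * (q : ℝ) ^ 16) (hc : Cond (q ^ 6 - 2 * q ^ 5) (q ^ 5) (q ^ 2) b s) :
    cq t q * (1 / √(((b : ℝ) + 1) ^ 2 + (t * (q : ℝ) ^ 2) ^ 2)) ≤
      lam (q ^ 6 - 2 * q ^ 5) (q ^ 5) (q ^ 2) b s := by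
  unfold lam
  rw [if_pos hc]
  have hqr : (3 : ℝ) ≤ q := by exact_mod_cast hq
  have hq0 : (0 : ℝ) < q := by linarith
  have hle : 2 * q ^ 5 ≤ q ^ 6 := by
    calc 2 * q ^ 5 ≤ q * q ^ 5 := Nat.mul_le_mul_right _ (by omega)
      _ = q ^ 6 := by ring
  have hL : ((q ^ 6 - 2 * q ^ 5 : ℕ) : ℝ) = (q : ℝ) ^ 6 - 2 * (q : ℝ) ^ 5 := by
    rw [Nat.cast_sub hle]; push_cast; ring
  have hk : ((q ^ 5 : ℕ) : ℝ) = (q : ℝ) ^ 5 := by push_cast; ring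
  set R := √(((b : ℝ) + 1) ^ 2 + (t * (q : ℝ) ^ 2) ^ 2) with hR
  have hRpos : 0 < R := Real.sqrt_pos.2 (by positivity)
  have hRτ : t * (q : ℝ) ^ 2 ≤ R := by
    apply Real.le_sqrt_of_sq_le
    have : 0 ≤ ((b : ℝ) + 1) ^ 2 := by positivity
    linarith
  have hinv : (1 : ℝ) / q ≤ 1 / 3 := by
    apply one_div_le_one_div_of_le (by norm_num) hqr
  have hinv0 : (0 : ℝ) < 1 / q := by positivity
  have hDt : Dt (q ^ 6 - 2 * q ^ 5) (q ^ 5) b s ≤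
      (1 / (1 - 1 / (q : ℝ)) + 1 / t * (1 / (q : ℝ)) ^ 2) * R := by
    unfold Dt
    rw [hL, hk]
    have e1 : (q : ℝ) ^ 6 - 2 * (q : ℝ) ^ 5 + 2 * (q : ℝ) ^ 5 = (q : ℝ) ^ 6 := by ring
    have e2 : (q : ℝ) ^ 6 - 2 * (q : ℝ) ^ 5 + (q : ℝ) ^ 5 = (q : ℝ) ^ 6 * (1 - 1 / q) := by
      field_simp; ring
    rw [e1, e2]
    have e3 : √((((b : ℝ) + 1) * (q : ℝ) ^ 6) ^ 2 + 2 * s) ≤ (q : ℝ) ^ 6 * R := by
      rw [hR]
      apply Real.sqrt_le_iff.2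
      refine ⟨by positivity, ?_⟩
      rw [mul_pow ((q : ℝ) ^ 6), Real.sq_sqrt (by positivity)]
      nlinarith
    have e4 : √((((b : ℝ) + 1) * (q : ℝ) ^ 6) ^ 2 + 2 * s) / ((q : ℝ) ^ 6 * (1 - 1 / q)) ≤
        1 / (1 - 1 / (q : ℝ)) * R := by
      rw [div_le_iff₀ (by
        have : (0 : ℝ) < 1 - 1 / q := by linarith
        positivity)]
      have h5 : (1 : ℝ) - 1 / q ≠ 0 := by
        have : (0 : ℝ) < 1 - 1 / q := by linarith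
        exact this.ne'
      calc √((((b : ℝ) + 1) * (q : ℝ) ^ 6) ^ 2 + 2 * s) ≤ (q : ℝ) ^ 6 * R := e3
        _ = 1 / (1 - 1 / (q : ℝ)) * R * ((q : ℝ) ^ 6 * (1 - 1 / q)) := by
          generalize (1 : ℝ) - 1 / q = z at h5
          field_simp
    have e5 : (1 : ℝ) ≤ 1 / t * (1 / (q : ℝ)) ^ 2 * R := by
      calc (1 : ℝ) = 1 / t * (1 / (q : ℝ)) ^ 2 * (t * (q : ℝ) ^ 2) := by field_simp
        _ ≤ _ := by gcongr
    calc √((((b : ℝ) + 1) * (q : ℝ) ^ 6) ^ 2 + 2 * s) / ((q : ℝ) ^ 6 * (1 - 1 / q)) + 1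
        ≤ 1 / (1 - 1 / (q : ℝ)) * R + 1 / t * (1 / (q : ℝ)) ^ 2 * R := add_le_add e4 e5
      _ = _ := by ring
  have hD1 := Dt_pos (L := q ^ 6 - 2 * q ^ 5) (k := q ^ 5) b s
  have hfrac : ((q ^ 6 - 2 * q ^ 5 : ℕ) : ℝ) /
      ((((q ^ 6 - 2 * q ^ 5 : ℕ) : ℝ) + 2 * ((q ^ 5 : ℕ) : ℝ)) * Dt (q ^ 6 - 2 * q ^ 5) (q ^ 5) b s) =
      (1 - 2 * (1 / (q : ℝ))) / Dt (q ^ 6 - 2 * q ^ 5) (q ^ 5) b s := by
    rw [hL, hk]
    have e1 : (q : ℝ) ^ 6 - 2 * (q : ℝ) ^ 5 + 2 * (q : ℝ) ^ 5 = (q : ℝ) ^ 6 := by ring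
    have e2 : (q : ℝ) ^ 6 - 2 * (q : ℝ) ^ 5 = (q : ℝ) ^ 6 * (1 - 2 * (1 / q)) := by
      field_simp
    rw [e1, e2]
    have : (0 : ℝ) < Dt (q ^ 6 - 2 * q ^ 5) (q ^ 5) b s := by linarith
    field_simp
  rw [hfrac]
  have hnum : (0 : ℝ) ≤ 1 - 2 * (1 / (q : ℝ)) := by linarith
  calc cq t q * (1 / R) = (1 - 2 * (1 / (q : ℝ))) /
        ((1 / (1 - 1 / (q : ℝ)) + 1 / t * (1 / (q : ℝ)) ^ 2) * R) := by
        unfold cq
        rw [div_mul_div_comm, mul_one]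
    _ ≤ _ := by
        gcongr

/-- Pointwise upper bound for the probability that a value is missed. -/
lemma prod_eventually {t η : ℝ} (ht0 : 0 < t) (ht1 : t < 1) (hη : 0 < η) :
    ∀ᶠ q : ℕ in atTop, ∀ s : ℕ, 2 * q ^ 14 ≤ s → 2 * (s : ℝ) ≤ t ^ 2 * (q : ℝ) ^ 16 →
      ∏ b ∈ Finset.range (q ^ 2), (1 - lam (q ^ 6 - 2 * q ^ 5) (q ^ 5) (q ^ 2) b s) ≤
        (1 - √(1 - t ^ 2)) / t + η := by
  have ht2 : 0 < 1 - t ^ 2 := by nlinarith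
  have hsq : 0 < √(1 - t ^ 2) := Real.sqrt_pos.2 ht2
  -- choice of θ
  obtain ⟨θ, hθ0, hθ1, hθ2⟩ : ∃ θ : ℝ, 0 < θ ∧ θ < √(1 - t ^ 2) ∧
      Real.exp (-Real.arsinh (θ / t)) < (1 - √(1 - t ^ 2)) / t + η / 2 := by
    have hcont : ContinuousAt (fun θ : ℝ => Real.exp (-Real.arsinh (θ / t))) (√(1 - t ^ 2)) := by
      have : Continuous (fun θ : ℝ => Real.exp (-Real.arsinh (θ / t))) :=
        Real.continuous_exp.comp (Real.continuous_arsinh.comp (continuous_id.div_const t)).neg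
      exact this.continuousAt
    have h1 : ∀ᶠ θ in 𝓝 (√(1 - t ^ 2)), Real.exp (-Real.arsinh (θ / t)) <
        (1 - √(1 - t ^ 2)) / t + η / 2 := by
      apply hcont.eventually_lt continuousAt_const
      rw [exp_neg_arsinh ht0 ht1]
      linarith
    have h2 : ∀ᶠ θ in 𝓝[<] (√(1 - t ^ 2)), Real.exp (-Real.arsinh (θ / t)) <
        (1 - √(1 - t ^ 2)) / t + η / 2 := h1.filter_mono nhdsWithin_le_nhds
    have h3 : ∀ᶠ θ in 𝓝[<] (√(1 - t ^ 2)), θ ∈ Set.Ioo 0 (√(1 - t ^ 2)) :=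
      Ioo_mem_nhdsLT hsq
    obtain ⟨θ, h4, h5⟩ := (h2.and h3).exists
    exact ⟨θ, h5.1, h5.2, h4⟩
  have h0 : Tendsto (fun q : ℕ => 1 / (q : ℝ)) atTop (𝓝 0) := tendsto_one_div_atTop_nhds_zero_nat
  have hE2 : ∀ᶠ q : ℕ in atTop, Real.exp (-(cq t q * (Real.arsinh (θ / t) -
      1 / t * (1 / (q : ℝ)) ^ 2))) < (1 - √(1 - t ^ 2)) / t + η := by
    have h1 : Tendsto (fun q : ℕ => Real.exp (-(cq t q * (Real.arsinh (θ / t) -
      1 / t * (1 / (q : ℝ)) ^ 2)))) atTop (𝓝 (Real.exp (-(1 * (Real.arsinh (θ / t) -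
      1 / t * 0 ^ 2))))) := by
      apply (Real.continuous_exp.tendsto _).comp
      apply Tendsto.neg
      exact (cq_tendsto t).mul (tendsto_const_nhds.sub ((h0.pow 2).const_mul _))
    apply h1.eventually_lt_const
    have : -(1 * (Real.arsinh (θ / t) - 1 / t * 0 ^ 2)) = -Real.arsinh (θ / t) := by ring
    rw [this]
    linarith
  have hE1 : ∀ᶠ q : ℕ in atTop, θ ^ 2 + t ^ 2 <
      ((1 - 1 / (q : ℝ)) * (1 - (1 / (q : ℝ)) ^ 2)) ^ 2 := by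
    have h1 : Tendsto (fun q : ℕ => ((1 - 1 / (q : ℝ)) * (1 - (1 / (q : ℝ)) ^ 2)) ^ 2) atTop
        (𝓝 (((1 - 0) * (1 - 0 ^ 2)) ^ 2)) :=
      ((tendsto_const_nhds.sub h0).mul (tendsto_const_nhds.sub (h0.pow 2))).pow 2
    apply h1.eventually_const_lt
    have h2 : θ ^ 2 < 1 - t ^ 2 := by
      have := pow_lt_pow_left₀ hθ1 hθ0.le (n := 2) (by norm_num)
      rwa [Real.sq_sqrt ht2.le] at this
    norm_num
    linarith
  have hE3 : ∀ᶠ q : ℕ in atTop, 0 < cq t q :=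
    (cq_tendsto t).eventually_const_lt (by norm_num)
  filter_upwards [hE1, hE2, hE3, eventually_ge_atTop 3] with q h1 h2 h3 hq s hs1 hs2
  have hqr : (3 : ℝ) ≤ q := by exact_mod_cast hq
  have hq0 : (0 : ℝ) < q := by linarith
  set J := ⌊θ * (q : ℝ) ^ 2⌋₊ with hJ
  have hJle : (J : ℝ) ≤ θ * (q : ℝ) ^ 2 := Nat.floor_le (by positivity)
  have hJlt : θ * (q : ℝ) ^ 2 < J + 1 := Nat.lt_floor_add_one _
  have hθ1' : θ < 1 := by
    refine hθ1.trans ?_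
    rw [Real.sqrt_lt' one_pos]
    nlinarith
  have hJq : J < q ^ 2 := by
    have : (J : ℝ) < (q : ℝ) ^ 2 := by
      have : 0 < (q : ℝ) ^ 2 := by positivity
      nlinarith
    exact_mod_cast this
  -- the condition holds for b < J
  have hcond : ∀ b < J, Cond (q ^ 6 - 2 * q ^ 5) (q ^ 5) (q ^ 2) b s := by
    intro b hb
    have hle : 2 * q ^ 5 ≤ q ^ 6 := by
      calc 2 * q ^ 5 ≤ q * q ^ 5 := Nat.mul_le_mul_right _ (by omega)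
        _ = q ^ 6 := by ring
    have e1 : q ^ 6 - 2 * q ^ 5 + 2 * q ^ 5 = q ^ 6 := by omega
    have e2 : q ^ 6 - 2 * q ^ 5 + q ^ 5 = q ^ 6 - q ^ 5 := by omega
    unfold Cond
    rw [e1, e2]
    refine ⟨?_, ?_, by omega⟩
    · have hle2 : q ^ 5 ≤ q ^ 6 := by omega
      have hle3 : 1 ≤ q ^ 2 := by omega
      have hreal : (((b : ℝ) + 1) * (q : ℝ) ^ 6) ^ 2 + 2 * s ≤
          (((q : ℝ) ^ 6 - (q : ℝ) ^ 5) * ((q : ℝ) ^ 2 - 1)) ^ 2 := by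
        have hb1 : (b : ℝ) + 1 ≤ θ * (q : ℝ) ^ 2 := by
          have : (b : ℝ) + 1 ≤ J := by exact_mod_cast hb
          linarith
        have e3 : (((b : ℝ) + 1) * (q : ℝ) ^ 6) ^ 2 ≤ (θ * (q : ℝ) ^ 2 * (q : ℝ) ^ 6) ^ 2 := by
          gcongr
        have e4 : (((q : ℝ) ^ 6 - (q : ℝ) ^ 5) * ((q : ℝ) ^ 2 - 1)) ^ 2 =
            ((1 - 1 / (q : ℝ)) * (1 - (1 / (q : ℝ)) ^ 2)) ^ 2 * (q : ℝ) ^ 16 := by
          field_simp
        rw [e4]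
        have e5 : (θ ^ 2 + t ^ 2) * (q : ℝ) ^ 16 ≤
            ((1 - 1 / (q : ℝ)) * (1 - (1 / (q : ℝ)) ^ 2)) ^ 2 * (q : ℝ) ^ 16 := by gcongr
        calc (((b : ℝ) + 1) * (q : ℝ) ^ 6) ^ 2 + 2 * s
            ≤ (θ * (q : ℝ) ^ 2 * (q : ℝ) ^ 6) ^ 2 + t ^ 2 * (q : ℝ) ^ 16 := by linarith
          _ = (θ ^ 2 + t ^ 2) * (q : ℝ) ^ 16 := by ring
          _ ≤ _ := e5
      have hcast : ((((b + 1) * q ^ 6) ^ 2 + 2 * s : ℕ) : ℝ) ≤
          ((((q ^ 6 - q ^ 5) * (q ^ 2 - 1)) ^ 2 : ℕ) : ℝ) := by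
        push_cast [Nat.cast_sub hle2, Nat.cast_sub hle3]
        exact hreal
      exact_mod_cast hcast
    · have e6 : (b + 1) * (q ^ 6) ^ 2 ≤ q ^ 2 * (q ^ 6) ^ 2 := by
        gcongr; omega
      have e7 : q ^ 5 * q ^ 5 ≤ q ^ 14 := by
        rw [← pow_add]
        exact Nat.pow_le_pow_right (by omega) (by norm_num)
      have e8 : q ^ 2 * (q ^ 6) ^ 2 = q ^ 14 := by ring
      omega
  -- the sum
  have hτ : 0 < t * (q : ℝ) ^ 2 := by positivity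
  have hsum : cq t q * (Real.arsinh (θ / t) - 1 / t * (1 / (q : ℝ)) ^ 2) ≤
      ∑ b ∈ Finset.range (q ^ 2), lam (q ^ 6 - 2 * q ^ 5) (q ^ 5) (q ^ 2) b s := by
    have e1 : ∑ b ∈ Finset.range J, lam (q ^ 6 - 2 * q ^ 5) (q ^ 5) (q ^ 2) b s ≤
        ∑ b ∈ Finset.range (q ^ 2), lam (q ^ 6 - 2 * q ^ 5) (q ^ 5) (q ^ 2) b s := by
      apply Finset.sum_le_sum_of_subset_of_nonneg (Finset.range_mono hJq.le)
      intro i _ _
      exact lam_nonneg _ _ _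
    have e2 : ∑ b ∈ Finset.range J, cq t q * (1 / √(((b : ℝ) + 1) ^ 2 + (t * (q : ℝ) ^ 2) ^ 2)) ≤
        ∑ b ∈ Finset.range J, lam (q ^ 6 - 2 * q ^ 5) (q ^ 5) (q ^ 2) b s :=
      Finset.sum_le_sum fun b hb => lam_lower hq ht0 hs2 (hcond b (Finset.mem_range.1 hb))
    rw [← Finset.mul_sum] at e2
    have e3 := arsinh_sum hτ J
    have e4 : Real.arsinh (θ / t) ≤ Real.arsinh (((J : ℝ) + 1) / (t * (q : ℝ) ^ 2)) := by
      apply Real.arsinh_le_arsinh.2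
      rw [div_le_div_iff₀ ht0 hτ]
      nlinarith
    have e5 : Real.arsinh (1 / (t * (q : ℝ) ^ 2)) ≤ 1 / t * (1 / (q : ℝ)) ^ 2 := by
      refine (arsinh_le_self (by positivity)).trans (le_of_eq ?_)
      field_simp
    calc cq t q * (Real.arsinh (θ / t) - 1 / t * (1 / (q : ℝ)) ^ 2)
        ≤ cq t q * ∑ b ∈ Finset.range J, 1 / √(((b : ℝ) + 1) ^ 2 + (t * (q : ℝ) ^ 2) ^ 2) := by
          gcongr
          linarith
      _ ≤ _ := e2.trans e1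
  calc ∏ b ∈ Finset.range (q ^ 2), (1 - lam (q ^ 6 - 2 * q ^ 5) (q ^ 5) (q ^ 2) b s)
      ≤ Real.exp (-∑ b ∈ Finset.range (q ^ 2), lam (q ^ 6 - 2 * q ^ 5) (q ^ 5) (q ^ 2) b s) :=
        prod_le_exp _ _ (fun i => lam_le_one _ _ _)
    _ ≤ Real.exp (-(cq t q * (Real.arsinh (θ / t) - 1 / t * (1 / (q : ℝ)) ^ 2))) := by
        apply Real.exp_le_exp.2
        linarith
    _ ≤ _ := h2.le

end Pool.Agent.Lib.MP_0ccce1_co
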