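import Pool.Agent.Lib.MP_0ccce1_co.Loss

set_option autoImplicit false

/-! Bounds for the number of coincidences. -/

namespace Pool.Agent.Lib.MP_0ccce1_co

variable {L k : ℕ}

lemma gapcount_le (g : ℕ → ℕ) (D N a Y : ℕ) (hD : 0 < D)
    (hstep : ∀ i < N, g i + D ≤ g (i + 1)) :
    ((Finset.range (N + 1)).filter (fun i => g i ≤ a ∧ a < g i + Y)).card ≤ Y / D + 1 := by
  classical
  set F := (Finset.range (N + 1)).filter (fun i => g i ≤ a ∧ a < g i + Y) with hF
  by_cases hne : F.Nonempty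
  · set i0 := F.min' hne with hi0
    have hi0F : i0 ∈ F := F.min'_mem hne
    have hsub : F ⊆ Finset.Icc i0 (i0 + Y / D) := by
      intro j hj
      have h1 : i0 ≤ j := F.min'_le j hj
      rw [Finset.mem_Icc]
      refine ⟨h1, ?_⟩
      rw [hF, Finset.mem_filter, Finset.mem_range] at hj hi0F
      have h2 : ∀ d, i0 + d ≤ N → g i0 + d * D ≤ g (i0 + d) := by
        intro d
        induction d with
        | zero => intro _; simp
        | succ d ih =>
          intro hd
          have h3 := ih (by omega)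
          have h4 := hstep (i0 + d) (by omega)
          have h5 : (d + 1) * D = d * D + D := by ring
          have h6 : i0 + (d + 1) = i0 + d + 1 := by omega
          rw [h6]
          omega
      have h3 := h2 (j - i0) (by omega)
      rw [Nat.add_sub_cancel' h1] at h3
      have h4 : (j - i0) * D < Y := by omega
      have h5 : j - i0 ≤ Y / D := (Nat.le_div_iff_mul_le hD).2 h4.le
      omega
    have := Finset.card_le_card hsub
    rw [Nat.card_Icc] at this
    generalize Y / D = q at this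
    omega
  · rw [Finset.not_nonempty_iff_eq_empty] at hne
    rw [hne]
    simp

/-- Coincidences inside a block. -/
def SBset (L k B b : ℕ) : Finset (ℕ × ℕ × ℕ × ℕ × ℕ) :=
  (Finset.range L ×ˢ Finset.range L ×ˢ Finset.Ioo b B ×ˢ Finset.range (L + 1) ×ˢ
    Finset.range (L + 1)).filter (fun x => x.1 < x.2.1 ∧ x.2.2.2.1 < x.2.2.2.2 ∧
      (x.2.2.2.1 * (x.2.2.1 * (L + 2 * k)) + tri x.2.2.2.1) +
        (x.2.1 * (b * (L + 2 * k)) + tri x.2.1) =
      (x.2.2.2.2 * (x.2.2.1 * (L + 2 * k)) + tri x.2.2.2.2) +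
        (x.1 * (b * (L + 2 * k)) + tri x.1))

/-- Coincidences across a boundary. -/
def STset (L k b β t : ℕ) : Finset (ℕ × ℕ × ℕ × ℕ) :=
  (Finset.range L ×ˢ Finset.range L ×ˢ Finset.range (L + 1) ×ˢ Finset.range (L + 1)).filter
    (fun x => x.1 < x.2.1 ∧
      ((L + k) * (β * (L + 2 * k)) + tri (L + k) + t) +
        (x.2.2.2 * ((β + 1) * (L + 2 * k)) + tri x.2.2.2) + (x.1 * (b * (L + 2 * k)) + tri x.1) =
      (x.2.2.1 * (β * (L + 2 * k)) + tri x.2.2.1) + (x.2.1 * (b * (L + 2 * k)) + tri x.2.1))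

lemma pre_zero_add (u : ℕ → ℕ) (β h : ℕ) :
    pre L k u β h = pre L k u β 0 + (h * (β * (L + 2 * k)) + tri h) := by
  unfold pre
  simp [tri]

lemma card_Dup_le (hk : 0 < k) (B Y b : ℕ) (u : ℕ → ℕ) :
    (Dup L k B Y b u).card ≤ (SBset L k B b).card +
      ∑ β ∈ Finset.Ioo b B, (STset L k b β (u β % Y)).card := by
  classical
  set v := cut Y b u with hv
  have hsub : Dup L k B Y b u ⊆
      (SBset L k B b).image (fun x => (x.2.1, x.2.2.1, x.2.2.2.2)) ∪
      (Finset.Ioo b B).biUnion (fun β => (STset L k b β (u β % Y)).image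
        (fun x => (x.2.1, β + 1, x.2.2.2))) := by
    intro x hx
    unfold Dup at hx
    rw [Finset.mem_filter, ← hv] at hx
    obtain ⟨hT, x', hT', hlt, hval⟩ := hx
    obtain ⟨h2, β2, h2'⟩ := x
    obtain ⟨h1, β1, h1'⟩ := x'
    rw [mem_Tri] at hT hT'
    simp only at hT hT' hlt hval
    obtain ⟨a1, ⟨a2, a3⟩, a4⟩ := hT
    obtain ⟨b1, ⟨b2, b3⟩, b4⟩ := hT'
    rw [Finset.mem_union]
    have hlt2 : pre L k v b h1 < pre L k v b h2 :=
      pre_lt hk v (by omega) (by omega) (Or.inr ⟨rfl, hlt⟩)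
    rcases lt_trichotomy β1 β2 with hβ | hβ | hβ
    · rcases Nat.lt_or_ge (β1 + 1) β2 with hβ2 | hβ2
      · -- impossible
        exfalso
        have e1 : pre L k v (β1 + 2) 0 ≤ pre L k v β2 h2' := by
          rcases eq_or_lt_of_le (show β1 + 2 ≤ β2 from hβ2) with h3 | h3
          · rw [← h3]; exact pre_mono v _ (Nat.zero_le _)
          · exact (pre_lt hk v (Nat.zero_le L) a4 (Or.inl h3)).le
        rw [pre_next] at e1
        have e2 : pre L k v β1 h1' < pre L k v (β1 + 1) 0 :=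
          pre_lt hk v b4 (Nat.zero_le L) (Or.inl (Nat.lt_succ_self β1))
        have e3 : pre L k v b h2 ≤ pre L k v b h1 + (L * (b * (L + 2 * k)) + tri L) := by
          have f1 := pre_mono (L := L) (k := k) v b (show h2 ≤ L by omega)
          have f2 := pre_mono (L := L) (k := k) v b (Nat.zero_le h1)
          rw [pre_zero_add v b L] at f1
          omega
        have e4 : L * (b * (L + 2 * k)) ≤ (L + k) * ((β1 + 1) * (L + 2 * k)) := by
          gcongr <;> omega
        have e5 : tri L ≤ tri (L + k) := tri_mono (by omega)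
        omega
      · -- neighbouring blocks
        right
        have hβ3 : β2 = β1 + 1 := by omega
        subst hβ3
        rw [Finset.mem_biUnion]
        refine ⟨β1, Finset.mem_Ioo.2 ⟨b2, b3⟩, ?_⟩
        rw [Finset.mem_image]
        refine ⟨(h1, h2, h1', h2'), ?_, rfl⟩
        unfold STset
        rw [Finset.mem_filter]
        simp only [Finset.mem_product, Finset.mem_range]
        refine ⟨⟨b1, a1, by omega, by omega⟩, hlt, ?_⟩
        have hvβ : v β1 = u β1 % Y := by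
          rw [hv]; unfold cut; rw [if_neg (by omega)]
        rw [pre_zero_add v (β1 + 1) h2', pre_next, pre_zero_add v β1 h1', pre_zero_add v b h1,
          pre_zero_add v b h2, hvβ] at hval
        omega
    · -- same block
      left
      subst hβ
      rw [Finset.mem_image]
      refine ⟨(h1, h2, β1, h1', h2'), ?_, rfl⟩
      unfold SBset
      rw [Finset.mem_filter]
      simp only [Finset.mem_product, Finset.mem_range, Finset.mem_Ioo]
      have hh : h1' < h2' := by
        by_contra hcon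
        push Not at hcon
        have := pre_mono (L := L) (k := k) v β1 hcon
        omega
      refine ⟨⟨b1, a1, ⟨b2, b3⟩, by omega, by omega⟩, hlt, hh, ?_⟩
      rw [pre_zero_add v β1 h2', pre_zero_add v β1 h1', pre_zero_add v b h1,
        pre_zero_add v b h2] at hval
      omega
    · exfalso
      have := pre_lt hk v a4 b4 (Or.inl hβ)
      omega
  refine (Finset.card_le_card hsub).trans ((Finset.card_union_le _ _).trans ?_)
  apply Nat.add_le_add Finset.card_image_le
  exact Finset.card_biUnion_le.trans (Finset.sum_le_sum fun β _ => Finset.card_image_le)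

lemma sum_STset (hk : 0 < k) (b β Y : ℕ) :
    ∑ t ∈ Finset.range Y, (STset L k b β t).card ≤
      L * (L * ((L + 1) * (Y / ((β + 1) * (L + 2 * k)) + 1))) := by
  classical
  let A : Finset (ℕ × ℕ × ℕ) := Finset.range L ×ˢ Finset.range L ×ˢ Finset.range (L + 1)
  let g : ℕ × ℕ × ℕ → ℕ → ℕ := fun y j => ((L + k) * (β * (L + 2 * k)) + tri (L + k)) +
        (j * ((β + 1) * (L + 2 * k)) + tri j) + (y.1 * (b * (L + 2 * k)) + tri y.1)
  let C : ℕ × ℕ × ℕ → ℕ := fun y =>
      (y.2.2 * (β * (L + 2 * k)) + tri y.2.2) + (y.2.1 * (b * (L + 2 * k)) + tri y.2.1)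
  let T : ℕ × ℕ × ℕ → Finset ℕ := fun y =>
    (Finset.range (L + 1)).filter (fun j => g y j ≤ C y ∧ C y < g y j + Y)
  have h1 : ∑ t ∈ Finset.range Y, (STset L k b β t).card =
      ((Finset.range Y).sigma (fun t => STset L k b β t)).card := by
    rw [Finset.card_sigma]
  have h2 : ((Finset.range Y).sigma (fun t => STset L k b β t)).card ≤ (A.sigma T).card := by
    apply Finset.card_le_card_of_injOn
      (fun x => (⟨(x.2.1, x.2.2.1, x.2.2.2.1), x.2.2.2.2⟩ : (_ : ℕ × ℕ × ℕ) × ℕ))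
    · rintro ⟨t, h1, h2, h1', h2'⟩ hx
      rw [Finset.mem_coe, Finset.mem_sigma] at hx
      obtain ⟨ht, hx⟩ := hx
      unfold STset at hx
      rw [Finset.mem_filter] at hx
      simp only [Finset.mem_product, Finset.mem_range] at hx ht
      rw [Finset.mem_coe, Finset.mem_sigma]
      simp only [A, T, g, C, Finset.mem_product, Finset.mem_range, Finset.mem_filter]
      omega
    · rintro ⟨t, h1, h2, h1', h2'⟩ hx ⟨s, k1, k2, k1', k2'⟩ hy hxy
      rw [Finset.mem_coe, Finset.mem_sigma] at hx hy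
      obtain ⟨-, hx⟩ := hx
      obtain ⟨-, hy⟩ := hy
      unfold STset at hx hy
      rw [Finset.mem_filter] at hx hy
      simp only at hx hy
      simp only [Sigma.mk.injEq, Prod.mk.injEq, heq_eq_eq] at hxy
      obtain ⟨⟨rfl, rfl, rfl⟩, rfl⟩ := hxy
      have : t = s := by omega
      subst this
      rfl
  rw [h1]
  refine h2.trans ?_
  rw [Finset.card_sigma]
  have hD : 0 < (β + 1) * (L + 2 * k) := by positivity
  have h3 : ∀ y ∈ A, (T y).card ≤ Y / ((β + 1) * (L + 2 * k)) + 1 := by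
    intro y _
    apply gapcount_le (g y) _ L (C y) Y hD
    intro i _
    simp only [g]
    rw [tri_succ, add_mul i 1]
    omega
  refine (Finset.sum_le_sum h3).trans (le_of_eq ?_)
  rw [Finset.sum_const]
  simp only [A, Finset.card_product, Finset.card_range, smul_eq_mul]
  ring

/-- Number of multiples in an interval. -/
lemma card_mult (m N c : ℕ) (hc : 0 < c) :
    ((Finset.Ioc m (m + N)).filter (c ∣ ·)).card ≤ N / c + 1 := by
  have h1 := Nat.Ioc_filter_dvd_card_eq_div (m + N) c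
  have h2 := Nat.Ioc_filter_dvd_card_eq_div m c
  have h3 : (Finset.Ioc 0 (m + N)).filter (c ∣ ·) =
      (Finset.Ioc 0 m).filter (c ∣ ·) ∪ (Finset.Ioc m (m + N)).filter (c ∣ ·) := by
    ext x
    simp only [Finset.mem_filter, Finset.mem_union, Finset.mem_Ioc]
    constructor
    · rintro ⟨h4, h5⟩
      by_cases h6 : x ≤ m
      · left; exact ⟨⟨h4.1, h6⟩, h5⟩
      · right; exact ⟨⟨by omega, h4.2⟩, h5⟩
    · rintro (⟨h4, h5⟩ | ⟨h4, h5⟩)
      · exact ⟨⟨h4.1, by omega⟩, h5⟩
      · exact ⟨⟨by omega, h4.2⟩, h5⟩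
  have h4 : Disjoint ((Finset.Ioc 0 m).filter (c ∣ ·)) ((Finset.Ioc m (m + N)).filter (c ∣ ·)) := by
    rw [Finset.disjoint_left]
    intro x hx hx'
    simp only [Finset.mem_filter, Finset.mem_Ioc] at hx hx'
    omega
  rw [h3, Finset.card_union_of_disjoint h4, h2] at h1
  have h5 : (m + N) / c ≤ m / c + N / c + 1 := by
    have e1 := Nat.div_add_mod m c
    have e2 := Nat.div_add_mod N c
    have e3 := Nat.mod_lt m hc
    have e4 := Nat.mod_lt N hc
    rw [Nat.div_le_iff_le_mul_add_pred hc]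
    have e5 : c * (m / c + N / c + 1) = c * (m / c) + c * (N / c) + c := by ring
    omega
  omega

lemma key_eq {X X' h1 d h1' d' : ℕ} (h : (h1' * X' + tri h1') + ((h1 + d) * X + tri (h1 + d)) =
    ((h1' + d') * X' + tri (h1' + d')) + (h1 * X + tri h1)) :
    d * (2 * X + (h1 + (h1 + d) + 1)) = d' * (2 * X' + (h1' + (h1' + d') + 1)) := by
  have t1 := two_tri h1
  have t2 := two_tri (h1 + d)
  have t3 := two_tri h1'
  have t4 := two_tri (h1' + d')
  zify at t1 t2 t3 t4 h ⊢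
  linear_combination (2 : ℤ) * h - t2 + t1 + t4 - t3

lemma div_gcd_dvd {d d' e e' : ℕ} (hd : 0 < d) (h : d * e = d' * e') :
    d' / Nat.gcd d d' ∣ e := by
  have hg0 : 0 < Nat.gcd d d' := Nat.gcd_pos_of_pos_left _ hd
  have hgd : Nat.gcd d d' ∣ d := Nat.gcd_dvd_left _ _
  have hgd' : Nat.gcd d d' ∣ d' := Nat.gcd_dvd_right _ _
  have hcop : Nat.Coprime (d' / Nat.gcd d d') (d / Nat.gcd d d') := by
    rw [Nat.coprime_comm]
    exact Nat.coprime_div_gcd_div_gcd hg0
  apply hcop.dvd_of_dvd_mul_left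
  have e1 : Nat.gcd d d' * (d / Nat.gcd d d') = d := Nat.mul_div_cancel' hgd
  have e2 : Nat.gcd d d' * (d' / Nat.gcd d d') = d' := Nat.mul_div_cancel' hgd'
  have e3 : Nat.gcd d d' * ((d / Nat.gcd d d') * e) = Nat.gcd d d' * ((d' / Nat.gcd d d') * e') := by
    rw [← mul_assoc, ← mul_assoc, e1, e2]
    exact h
  rw [Nat.eq_of_mul_eq_mul_left hg0 e3]
  exact Dvd.intro _ rfl

lemma block_inj {X β γ i j d N : ℕ} (hN : N < X) (hi : i + d ≤ N) (hj : j + d ≤ N)
    (h : 2 * (β * X) + (i + (i + d) + 1) = 2 * (γ * X) + (j + (j + d) + 1)) : β = γ ∧ i = j := by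
  have hβγ : β = γ := by
    rcases lt_trichotomy β γ with h3 | h3 | h3
    · have h4 : (β + 1) * X ≤ γ * X := Nat.mul_le_mul_right _ h3
      rw [add_mul, one_mul] at h4
      omega
    · exact h3
    · have h4 : (γ + 1) * X ≤ β * X := Nat.mul_le_mul_right _ h3
      rw [add_mul, one_mul] at h4
      omega
  subst hβγ
  exact ⟨rfl, by omega⟩

lemma card_SBset (hk : 0 < k) (B b : ℕ) :
    (SBset L k B b).card ≤
      ∑ a ∈ Finset.Ioc 0 L, ∑ c ∈ Finset.Ioc 0 L, (L / a) * (2 * L / c + 1) := by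
  classical
  set m := 2 * (b * (L + 2 * k)) with hm
  let T : ℕ × ℕ → Finset (ℕ × ℕ) := fun ac =>
    (Finset.Ioc 0 L).filter (ac.1 ∣ ·) ×ˢ (Finset.Ioc m (m + 2 * L)).filter (ac.2 ∣ ·)
  have h1 : (SBset L k B b).card ≤ ((Finset.Ioc 0 L ×ˢ Finset.Ioc 0 L).sigma T).card := by
    apply Finset.card_le_card_of_injOn (fun x =>
      (⟨(Nat.gcd (x.2.1 - x.1) (x.2.2.2.2 - x.2.2.2.1),
        (x.2.2.2.2 - x.2.2.2.1) / Nat.gcd (x.2.1 - x.1) (x.2.2.2.2 - x.2.2.2.1)),
        (x.2.1 - x.1, m + (x.1 + x.2.1 + 1))⟩ : (_ : ℕ × ℕ) × (ℕ × ℕ)))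
    · rintro ⟨h1, h2, β, h1', h2'⟩ hx
      rw [Finset.mem_coe] at hx
      unfold SBset at hx
      rw [Finset.mem_filter] at hx
      simp only [Finset.mem_product, Finset.mem_range, Finset.mem_Ioo] at hx
      obtain ⟨⟨a1, a2, a3, a4, a5⟩, a6, a7, a8⟩ := hx
      rw [Finset.mem_coe, Finset.mem_sigma]
      simp only [T, Finset.mem_product, Finset.mem_filter, Finset.mem_Ioc]
      obtain ⟨d, rfl⟩ : ∃ d, h2 = h1 + d := ⟨h2 - h1, by omega⟩
      obtain ⟨d', rfl⟩ : ∃ d', h2' = h1' + d' := ⟨h2' - h1', by omega⟩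
      rw [Nat.add_sub_cancel_left, Nat.add_sub_cancel_left]
      have hd : 0 < d := by omega
      have hd' : 0 < d' := by omega
      have key := key_eq a8
      rw [← hm] at key
      have hdvd := div_gcd_dvd hd key
      set gg := Nat.gcd d d' with hgg
      have hg0 : 0 < gg := Nat.gcd_pos_of_pos_left _ hd
      have hgd : gg ∣ d := Nat.gcd_dvd_left _ _
      have hgd' : gg ∣ d' := Nat.gcd_dvd_right _ _
      have hgle : gg ≤ L := (Nat.le_of_dvd hd hgd).trans (by omega)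
      have hc0 : 0 < d' / gg := Nat.div_pos (Nat.le_of_dvd hd' hgd') hg0
      have hcle : d' / gg ≤ L := (Nat.div_le_self _ _).trans (by omega)
      exact ⟨⟨⟨hg0, hgle⟩, hc0, hcle⟩, ⟨⟨hd, by omega⟩, hgd⟩, ⟨by omega, by omega⟩, hdvd⟩
    · rintro ⟨h1, h2, β, h1', h2'⟩ hx ⟨k1, k2, γ, k1', k2'⟩ hy hxy
      rw [Finset.mem_coe] at hx hy
      unfold SBset at hx hy
      rw [Finset.mem_filter] at hx hy
      simp only [Finset.mem_product, Finset.mem_range, Finset.mem_Ioo] at hx hy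
      obtain ⟨⟨a1, a2, a3, a4, a5⟩, a6, a7, a8⟩ := hx
      obtain ⟨⟨b1, b2, b3, b4, b5⟩, b6, b7, b8⟩ := hy
      simp only [Sigma.mk.injEq, Prod.mk.injEq, heq_eq_eq] at hxy
      obtain ⟨⟨c1, c2⟩, c3, c4⟩ := hxy
      have r1 : h1 = k1 := by omega
      have r2 : h2 = k2 := by omega
      subst r1 r2
      obtain ⟨d, rfl⟩ : ∃ d, h2 = h1 + d := ⟨h2 - h1, by omega⟩
      obtain ⟨d', rfl⟩ : ∃ d', h2' = h1' + d' := ⟨h2' - h1', by omega⟩
      obtain ⟨e', rfl⟩ : ∃ e', k2' = k1' + e' := ⟨k2' - k1', by omega⟩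
      rw [Nat.add_sub_cancel_left, Nat.add_sub_cancel_left, Nat.add_sub_cancel_left] at c1 c2
      have hd : 0 < d := by omega
      have hd' : 0 < d' := by omega
      have hde : d' = e' := by
        have f1 : Nat.gcd d d' * (d' / Nat.gcd d d') = d' := Nat.mul_div_cancel' (Nat.gcd_dvd_right _ _)
        have f2 : Nat.gcd d e' * (e' / Nat.gcd d e') = e' := Nat.mul_div_cancel' (Nat.gcd_dvd_right _ _)
        rw [← f1, ← f2, c2, c1]
      subst hde
      have key1 := key_eq a8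
      have key2 := key_eq b8
      have key3 := Nat.eq_of_mul_eq_mul_left hd' (key1.symm.trans key2)
      obtain ⟨rfl, rfl⟩ := block_inj (N := L) (by omega) (by omega) (by omega) key3
      rfl
  refine h1.trans ?_
  rw [Finset.card_sigma, Finset.sum_product]
  refine Finset.sum_le_sum fun a ha => Finset.sum_le_sum fun c hc => ?_
  rw [Finset.mem_Ioc] at ha hc
  simp only [T]
  rw [Finset.card_product, Nat.Ioc_filter_dvd_card_eq_div]
  gcongr
  exact card_mult m (2 * L) c hc.1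

/-- The bound in terms of the logarithm. -/
lemma card_SBset_le (hk : 0 < k) (B b : ℕ) :
    ((SBset L k B b).card : ℝ) ≤ 3 * (L : ℝ) ^ 2 * (1 + Real.log L) ^ 2 := by
  have h1 := card_SBset (L := L) hk B b
  have h2 : ((SBset L k B b).card : ℝ) ≤
      ∑ a ∈ Finset.Ioc 0 L, ∑ c ∈ Finset.Ioc 0 L, ((L : ℝ) * (a : ℝ)⁻¹) * (3 * L * (c : ℝ)⁻¹) := by
    refine le_trans (by exact_mod_cast h1 : ((SBset L k B b).card : ℝ) ≤
      ((∑ a ∈ Finset.Ioc 0 L, ∑ c ∈ Finset.Ioc 0 L, (L / a) * (2 * L / c + 1) : ℕ) : ℝ)) ?_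
    push_cast
    refine Finset.sum_le_sum fun a ha => Finset.sum_le_sum fun c hc => ?_
    rw [Finset.mem_Ioc] at ha hc
    have ha' : (0 : ℝ) < a := by exact_mod_cast ha.1
    have hc' : (0 : ℝ) < c := by exact_mod_cast hc.1
    have hcL : (c : ℝ) ≤ L := by exact_mod_cast hc.2
    have e1 : ((L / a : ℕ) : ℝ) ≤ L * (a : ℝ)⁻¹ := by
      rw [← div_eq_mul_inv]; exact Nat.cast_div_le
    have e2 : ((2 * L / c : ℕ) : ℝ) ≤ 2 * L * (c : ℝ)⁻¹ := by
      rw [← div_eq_mul_inv]
      have := Nat.cast_div_le (α := ℝ) (m := 2 * L) (n := c)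
      push_cast at this
      exact this
    have e3 : (1 : ℝ) ≤ L * (c : ℝ)⁻¹ := by
      rw [← div_eq_mul_inv, le_div_iff₀ hc']; linarith
    gcongr
    linarith
  have h3 : ∑ a ∈ Finset.Ioc 0 L, ((a : ℝ))⁻¹ ≤ 1 + Real.log L := by
    have := harmonic_le_one_add_log L
    rw [harmonic_eq_sum_Icc] at this
    push_cast at this
    refine le_trans (le_of_eq ?_) this
    refine Finset.sum_congr ?_ fun _ _ => rfl
    ext x; simp [Finset.mem_Ioc, Finset.mem_Icc, Nat.succ_le_iff]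
  have h4 : 0 ≤ ∑ a ∈ Finset.Ioc 0 L, ((a : ℝ))⁻¹ := Finset.sum_nonneg fun i _ => by positivity
  calc ((SBset L k B b).card : ℝ)
      ≤ ∑ a ∈ Finset.Ioc 0 L, ∑ c ∈ Finset.Ioc 0 L, ((L : ℝ) * (a : ℝ)⁻¹) * (3 * L * (c : ℝ)⁻¹) := h2
    _ = 3 * (L : ℝ) ^ 2 * (∑ a ∈ Finset.Ioc 0 L, ((a : ℝ))⁻¹) ^ 2 := by
        rw [sq (∑ a ∈ Finset.Ioc 0 L, ((a : ℝ))⁻¹), Finset.sum_mul_sum, Finset.mul_sum]
        refine Finset.sum_congr rfl fun a _ => ?_
        rw [Finset.mul_sum]
        refine Finset.sum_congr rfl fun c _ => ?_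
        ring
    _ ≤ _ := by gcongr

end Pool.Agent.Lib.MP_0ccce1_co
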