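import Pool.Agent.Lib.MP_0ccce1_co.Defs

set_option autoImplicit false

/-! The sequence and its prefix sums. -/

namespace Pool.Agent.Lib.MP_0ccce1_co

/-- Triangular numbers. -/
def tri (n : ℕ) : ℕ := ∑ i ∈ Finset.range n, (i + 1)

lemma tri_succ (n : ℕ) : tri (n + 1) = tri n + (n + 1) := Finset.sum_range_succ _ n

lemma two_tri (n : ℕ) : 2 * tri n = n * (n + 1) := by
  induction n with
  | zero => rfl
  | succ n ih => rw [tri_succ, mul_add, ih]; ring

/-- Correction in the last `k` places of a block. -/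
def corr (L k v j : ℕ) : ℕ := if j < L then 0 else v / k + (if k ≤ (j - L) + v % k then 1 else 0)

/-- The sequence. -/
def aseq (L k : ℕ) (u : ℕ → ℕ) (i : ℕ) : ℕ :=
  (i / (L + k)) * (L + 2 * k) + (i % (L + k) + 1) + corr L k (u (i / (L + k))) (i % (L + k))

/-- The prefix sums at the places of the first part of a block. -/
def pre (L k : ℕ) (u : ℕ → ℕ) (b h : ℕ) : ℕ :=
  (∑ γ ∈ Finset.range b, ((L + k) * (γ * (L + 2 * k)) + tri (L + k) + u γ)) +
    (h * (b * (L + 2 * k)) + tri h)

variable {L k : ℕ}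

lemma corr_sum (hk : 0 < k) (v : ℕ) : ∑ j ∈ Finset.range (L + k), corr L k v j = v := by
  rw [Finset.sum_range_add]
  have e1 : ∑ j ∈ Finset.range L, corr L k v j = 0 := by
    apply Finset.sum_eq_zero
    intro j hj
    rw [Finset.mem_range] at hj
    simp [corr, hj]
  have e2 : ∀ j, corr L k v (L + j) = v / k + (if k ≤ j + v % k then 1 else 0) := by
    intro j
    unfold corr
    rw [if_neg (by omega), Nat.add_sub_cancel_left]
  rw [e1, zero_add]
  simp only [e2]
  rw [Finset.sum_add_distrib, Finset.sum_const, Finset.card_range, smul_eq_mul]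
  have e3 : ∑ j ∈ Finset.range k, (if k ≤ j + v % k then 1 else 0) = v % k := by
    have hr : v % k < k := Nat.mod_lt _ hk
    generalize v % k = r at hr
    have : ∀ m, m ≤ k → ∑ j ∈ Finset.range m, (if k ≤ j + r then 1 else 0) = m - (k - r) := by
      intro m
      induction m with
      | zero => intro _; simp
      | succ m ih =>
        intro hm
        rw [Finset.sum_range_succ, ih (by omega)]
        split_ifs <;> omega
    rw [this k le_rfl]
    omega
  rw [e3]
  exact Nat.div_add_mod v k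

lemma aseq_block (hk : 0 < k) (u : ℕ → ℕ) (b j : ℕ) (hj : j < L + k) :
    aseq L k u (b * (L + k) + j) = b * (L + 2 * k) + (j + 1) + corr L k (u b) j := by
  unfold aseq
  have h0 : 0 < L + k := by omega
  have h1 : (b * (L + k) + j) / (L + k) = b := by
    rw [mul_comm, Nat.mul_add_div h0, Nat.div_eq_of_lt hj, add_zero]
  have h2 : (b * (L + k) + j) % (L + k) = j := by
    rw [mul_comm, Nat.mul_add_mod, Nat.mod_eq_of_lt hj]
  rw [h1, h2]

lemma sum_block (hk : 0 < k) (u : ℕ → ℕ) (b : ℕ) :
    ∑ j ∈ Finset.range (L + k), aseq L k u (b * (L + k) + j) =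
      (L + k) * (b * (L + 2 * k)) + tri (L + k) + u b := by
  rw [Finset.sum_congr rfl (fun j hj => aseq_block hk u b j (Finset.mem_range.1 hj)),
    Finset.sum_add_distrib, corr_sum hk, Finset.sum_add_distrib, Finset.sum_const,
    Finset.card_range, smul_eq_mul]
  rfl

/-- Prefix sums. -/
lemma sum_prefix (hk : 0 < k) (u : ℕ → ℕ) (b h : ℕ) (hh : h ≤ L) :
    ∑ i ∈ Finset.range (b * (L + k) + h), aseq L k u i = pre L k u b h := by
  rw [Finset.sum_range_add]
  unfold pre
  congr 1
  · induction b with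
    | zero => simp
    | succ b ih =>
      rw [add_mul, one_mul, Finset.sum_range_add, ih, sum_block hk, Finset.sum_range_succ]
  · have : ∀ j ∈ Finset.range h, aseq L k u (b * (L + k) + j) = b * (L + 2 * k) + (j + 1) := by
      intro j hj
      rw [Finset.mem_range] at hj
      rw [aseq_block hk u b j (by omega)]
      unfold corr
      rw [if_pos (by omega), add_zero]
    rw [Finset.sum_congr rfl this, Finset.sum_add_distrib, Finset.sum_const, Finset.card_range,
      smul_eq_mul]
    rfl

lemma corr_le (v j : ℕ) (hv : v < k * k) : corr L k v j ≤ k := by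
  unfold corr
  have h1 : v / k < k := Nat.div_lt_of_lt_mul hv
  generalize v / k = x at h1
  generalize v % k = y
  split_ifs <;> omega

lemma corr_mono (v : ℕ) (i j : ℕ) (hij : i ≤ j) : corr L k v i ≤ corr L k v j := by
  unfold corr
  generalize v / k = x
  generalize v % k = y
  split_ifs <;> omega

lemma aseq_lt_succ (hk : 0 < k) (u : ℕ → ℕ) (hu : ∀ i, u i < k * k) (i : ℕ) :
    aseq L k u i < aseq L k u (i + 1) := by
  obtain ⟨b, j, hj, rfl⟩ : ∃ b j, j < L + k ∧ i = b * (L + k) + j :=
    ⟨i / (L + k), i % (L + k), Nat.mod_lt _ (by omega), by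
      rw [mul_comm]; exact (Nat.div_add_mod i (L + k)).symm⟩
  rcases Nat.lt_or_ge (j + 1) (L + k) with h | h
  · rw [aseq_block hk u b j hj, add_assoc (b * (L + k)) j 1, aseq_block hk u b (j + 1) h]
    have := corr_mono (L := L) (k := k) (u b) j (j + 1) (Nat.le_succ j)
    omega
  · have hj' : j + 1 = L + k := by omega
    have e : b * (L + k) + j + 1 = (b + 1) * (L + k) + 0 := by
      rw [add_assoc, hj']; ring
    rw [e, aseq_block hk u b j hj, aseq_block hk u (b + 1) 0 (by omega)]
    have := corr_le (L := L) (u b) j (hu b)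
    have e2 : (b + 1) * (L + 2 * k) = b * (L + 2 * k) + (L + 2 * k) := by ring
    omega

lemma aseq_strictMono (hk : 0 < k) (u : ℕ → ℕ) (hu : ∀ i, u i < k * k) :
    StrictMono (aseq L k u) := strictMono_nat_of_lt_succ (aseq_lt_succ hk u hu)

lemma aseq_le (hk : 0 < k) (u : ℕ → ℕ) (hu : ∀ i, u i < k * k) (B i : ℕ)
    (hi : i < B * (L + k)) : aseq L k u i ≤ B * (L + 2 * k) := by
  obtain ⟨b, j, hj, rfl⟩ : ∃ b j, j < L + k ∧ i = b * (L + k) + j :=
    ⟨i / (L + k), i % (L + k), Nat.mod_lt _ (by omega), by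
      rw [mul_comm]; exact (Nat.div_add_mod i (L + k)).symm⟩
  rw [aseq_block hk u b j hj]
  have h1 := corr_le (L := L) (u b) j (hu b)
  have hb : b < B := by
    by_contra hcon
    push Not at hcon
    have : B * (L + k) ≤ b * (L + k) := Nat.mul_le_mul_right _ hcon
    omega
  have h2 : (b + 1) * (L + 2 * k) ≤ B * (L + 2 * k) := Nat.mul_le_mul_right _ hb
  have e2 : (b + 1) * (L + 2 * k) = b * (L + 2 * k) + (L + 2 * k) := by ring
  omega

/-- The differences of prefix sums are consecutive sums. -/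
lemma mem_consecutiveSums (K : ℕ) (f : ℕ → ℕ) (m m' : ℕ) (hm : m < m') (hm' : m' ≤ K) (s : ℕ)
    (hs : ∑ i ∈ Finset.range m', f i = ∑ i ∈ Finset.range m, f i + s) :
    s ∈ consecutiveSums (fun i : Fin K => f i) := by
  refine ⟨⟨m, by omega⟩, ⟨m' - 1, by omega⟩, ?_, ?_⟩
  · rw [Fin.mk_le_mk]; omega
  · have h1 : ∑ i ∈ Finset.Ico m m', f i = s := by
      have := Finset.sum_range_add_sum_Ico f hm.le
      omega
    rw [← h1]
    symm
    refine Finset.sum_bij (fun (i : Fin K) _ => (i : ℕ)) ?_ ?_ ?_ ?_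
    · intro i hi
      rw [Finset.mem_Icc, Fin.le_def, Fin.le_def] at hi
      rw [Finset.mem_Ico]
      simp only at hi
      omega
    · intro i _ j _ hij
      exact Fin.ext hij
    · intro i hi
      rw [Finset.mem_Ico] at hi
      refine ⟨⟨i, by omega⟩, ?_, rfl⟩
      rw [Finset.mem_Icc, Fin.mk_le_mk, Fin.mk_le_mk]
      omega
    · intro i _
      rfl

end Pool.Agent.Lib.MP_0ccce1_co
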