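import Mathlib

set_option autoImplicit false

/-! A covering lemma proved by averaging over independent shifts. -/

namespace Pool.Agent.Lib.MP_0ccce1_co

/-- Average over the coordinate `b`. -/
noncomputable def Av (Y b : ℕ) (F : (ℕ → ℕ) → ℝ) (u : ℕ → ℕ) : ℝ :=
  (∑ t ∈ Finset.range Y, F (Function.update u b t)) / Y

/-- Average over the coordinates `0, …, b - 1`. -/
noncomputable def EE (Y : ℕ) : ℕ → ((ℕ → ℕ) → ℝ) → (ℕ → ℕ) → ℝ
  | 0, F => F
  | b + 1, F => Av Y b (EE Y b F)

section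

variable {Y : ℕ} (hY : 0 < Y)

lemma Av_mono {b : ℕ} {F G : (ℕ → ℕ) → ℝ} (h : ∀ u, F u ≤ G u) (u : ℕ → ℕ) :
    Av Y b F u ≤ Av Y b G u := by
  unfold Av
  gcongr
  exact h _

lemma Av_add {b : ℕ} (F G : (ℕ → ℕ) → ℝ) (u : ℕ → ℕ) :
    Av Y b (fun u => F u + G u) u = Av Y b F u + Av Y b G u := by
  unfold Av
  rw [Finset.sum_add_distrib, add_div]

lemma Av_mul {b : ℕ} (F : (ℕ → ℕ) → ℝ) (c : ℝ) (u : ℕ → ℕ) :
    Av Y b (fun u => c * F u) u = c * Av Y b F u := by
  unfold Av
  rw [← Finset.mul_sum, mul_div_assoc]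

include hY in
lemma Av_indep {b : ℕ} {F : (ℕ → ℕ) → ℝ} (h : ∀ u t, F (Function.update u b t) = F u)
    (u : ℕ → ℕ) : Av Y b F u = F u := by
  unfold Av
  simp only [h]
  rw [Finset.sum_const, Finset.card_range, nsmul_eq_mul]
  have : (Y : ℝ) ≠ 0 := by positivity
  field_simp

lemma EE_mono (b : ℕ) {F G : (ℕ → ℕ) → ℝ} (h : ∀ u, F u ≤ G u) :
    ∀ u, EE Y b F u ≤ EE Y b G u := by
  induction b with
  | zero => exact h
  | succ b ih => exact fun u => Av_mono ih u

lemma EE_add (b : ℕ) (F G : (ℕ → ℕ) → ℝ) :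
    EE Y b (fun u => F u + G u) = fun u => EE Y b F u + EE Y b G u := by
  induction b with
  | zero => rfl
  | succ b ih =>
    funext u
    show Av Y b (EE Y b (fun u => F u + G u)) u = _
    rw [ih, Av_add]
    rfl

include hY in
lemma EE_indep (b : ℕ) {F : (ℕ → ℕ) → ℝ}
    (h : ∀ i < b, ∀ u t, F (Function.update u i t) = F u) : EE Y b F = F := by
  induction b with
  | zero => rfl
  | succ b ih =>
    have ih' := ih (fun i hi => h i (Nat.lt_succ_of_lt hi))
    funext u
    show Av Y b (EE Y b F) u = F u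
    rw [ih']
    exact Av_indep hY (h b (Nat.lt_succ_self b)) u

include hY in
lemma EE_const (b : ℕ) (c : ℝ) : EE Y b (fun _ => c) = fun _ => c :=
  EE_indep hY b (fun _ _ _ _ => rfl)

lemma EE_sum (b : ℕ) {ι : Type} (s : Finset ι) (F : ι → (ℕ → ℕ) → ℝ) (hY : 0 < Y) :
    EE Y b (fun u => ∑ i ∈ s, F i u) = fun u => ∑ i ∈ s, EE Y b (F i) u := by
  classical
  induction s using Finset.induction_on with
  | empty =>
    simp only [Finset.sum_empty]
    exact EE_const hY b 0
  | insert a s ha ih =>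
    simp only [Finset.sum_insert ha]
    rw [EE_add, ih]

include hY in
lemma EE_le_of_Av_le {B β : ℕ} (hβ : β < B) {F : (ℕ → ℕ) → ℝ} {C : ℝ}
    (h : ∀ i < β, ∀ u t, F (Function.update u i t) = F u) (hC : ∀ u, Av Y β F u ≤ C) :
    ∀ u, EE Y B F u ≤ C := by
  induction B with
  | zero => omega
  | succ b ih =>
    intro u
    rcases Nat.lt_succ_iff_lt_or_eq.1 hβ with h1 | h1
    · have h2 := ih h1
      calc EE Y (b + 1) F u = Av Y b (EE Y b F) u := rfl
        _ ≤ Av Y b (fun _ => C) u := Av_mono h2 u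
        _ = C := Av_indep hY (fun _ _ => rfl) u
    · subst h1
      show Av Y β (EE Y β F) u ≤ C
      rw [EE_indep hY β h]
      exact hC u

include hY in
lemma exists_le_EE (b : ℕ) (F : (ℕ → ℕ) → ℝ) : ∀ u, ∃ u' : ℕ → ℕ, F u' ≤ EE Y b F u ∧
    (∀ i < b, u' i < Y) ∧ ∀ i, b ≤ i → u' i = u i := by
  induction b with
  | zero => exact fun u => ⟨u, le_rfl, fun i hi => absurd hi (Nat.not_lt_zero i), fun _ _ => rfl⟩
  | succ b ih =>
    intro u
    obtain ⟨t, ht, hle⟩ : ∃ t ∈ Finset.range Y,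
        EE Y b F (Function.update u b t) ≤ Av Y b (EE Y b F) u := by
      apply Finset.exists_le_of_sum_le (Finset.nonempty_range_iff.2 hY.ne')
      rw [Finset.sum_const, Finset.card_range, nsmul_eq_mul]
      unfold Av
      have : (Y : ℝ) ≠ 0 := by positivity
      field_simp
      exact le_rfl
    obtain ⟨u', h1, h2, h3⟩ := ih (Function.update u b t)
    refine ⟨u', h1.trans hle, ?_, ?_⟩
    · intro i hi
      rcases Nat.lt_succ_iff_lt_or_eq.1 hi with h4 | h4
      · exact h2 i h4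
      · subst h4
        rw [h3 i le_rfl, Function.update_self]
        exact Finset.mem_range.1 ht
    · intro i hi
      rw [h3 i (by omega), Function.update_of_ne (by omega)]

include hY in
/-- The covering lemma. -/
theorem cover (B : ℕ) (S : Finset ℕ) (H : ℕ → ℕ → (ℕ → ℕ) → Prop)
    (hdep : ∀ b s u i t, i < b → (H b s (Function.update u i t) ↔ H b s u))
    (lam : ℕ → ℕ → ℝ) (h1 : ∀ b s, lam b s ≤ 1) (h0 : ∀ b s, 0 ≤ lam b s)
    (ell : ℕ → ℕ → (ℕ → ℕ) → ℝ) (hell0 : ∀ b s u, 0 ≤ ell b s u)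
    (hellind : ∀ b s u i t, i ≤ b → ell b s (Function.update u i t) = ell b s u)
    (hp : ∀ b < B, ∀ s ∈ S, ∀ u, (Y : ℝ) * (lam b s - ell b s u) ≤
      (({t ∈ Finset.range Y | H b s (Function.update u b t)} : Set ℕ).ncard : ℝ)) :
    ∃ u : ℕ → ℕ, (∀ i < B, u i < Y) ∧
      ∑ s ∈ S, (1 - ∏ b ∈ Finset.range B, (1 - lam b s)) -
        EE Y B (fun u => ∑ s ∈ S, ∑ b ∈ Finset.range B, ell b s u) 0 ≤
      (({s ∈ S | ∃ b < B, H b s u} : Set ℕ).ncard : ℝ) := by
  classical
  let Z : ℕ → ℕ → (ℕ → ℕ) → ℝ := fun b s u => if ∃ γ, b ≤ γ ∧ γ < B ∧ H γ s u then 0 else 1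
  have hZ0 : ∀ b s u, 0 ≤ Z b s u := by
    intro b s u; simp only [Z]; split_ifs <;> norm_num
  have hZ1 : ∀ b s u, Z b s u ≤ 1 := by
    intro b s u; simp only [Z]; split_ifs <;> norm_num
  have hprod1 : ∀ b s, ∏ γ ∈ Finset.range b, (1 - lam γ s) ≤ 1 := fun b s =>
    Finset.prod_le_one (fun i _ => by linarith [h1 i s]) (fun i _ => by linarith [h0 i s])
  have hprod0 : ∀ b s, 0 ≤ ∏ γ ∈ Finset.range b, (1 - lam γ s) := fun b s =>
    Finset.prod_nonneg (fun i _ => by linarith [h1 i s])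
  -- one step
  have step : ∀ b < B, ∀ s ∈ S, ∀ u,
      Av Y b (Z b s) u ≤ Z (b + 1) s u * (1 - lam b s) + ell b s u := by
    intro b hb s hs u
    have hYr : (0 : ℝ) < Y := by positivity
    by_cases hex : ∃ γ, b + 1 ≤ γ ∧ γ < B ∧ H γ s u
    · have hz : ∀ t, Z b s (Function.update u b t) = 0 := by
        intro t
        obtain ⟨γ, h2, h3, h4⟩ := hex
        simp only [Z]
        rw [if_pos ⟨γ, by omega, h3, (hdep γ s u b t (by omega)).2 h4⟩]
      have : Av Y b (Z b s) u = 0 := by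
        unfold Av
        simp [hz]
      rw [this]
      simp only [Z]
      rw [if_pos hex, zero_mul, zero_add]
      exact hell0 b s u
    · have hz : Z (b + 1) s u = 1 := by
        simp only [Z]; rw [if_neg hex]
      rw [hz, one_mul]
      have hz2 : ∀ t, Z b s (Function.update u b t) =
          1 - (if H b s (Function.update u b t) then 1 else 0) := by
        intro t
        simp only [Z]
        by_cases hH : H b s (Function.update u b t)
        · rw [if_pos hH, if_pos ⟨b, le_rfl, hb, hH⟩]; norm_num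
        · rw [if_neg hH, if_neg]
          · norm_num
          · rintro ⟨γ, h2, h3, h4⟩
            rcases eq_or_lt_of_le h2 with h5 | h5
            · subst h5; exact hH h4
            · exact hex ⟨γ, h5, h3, (hdep γ s u b t h5).1 h4⟩
      have hcard : ((({t ∈ Finset.range Y | H b s (Function.update u b t)} : Set ℕ).ncard : ℕ) : ℝ)
          = ∑ t ∈ Finset.range Y, (if H b s (Function.update u b t) then (1 : ℝ) else 0) := by
        rw [Finset.sum_boole, ← Set.ncard_coe_finset]
        congr 2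
        ext t
        simp
      have h2 := hp b hb s hs u
      rw [hcard] at h2
      unfold Av
      rw [div_le_iff₀ hYr]
      simp only [hz2]
      rw [Finset.sum_sub_distrib, Finset.sum_const, Finset.card_range, nsmul_eq_mul]
      nlinarith
  -- induction
  have main : ∀ s ∈ S, ∀ b ≤ B, ∀ u, EE Y b (Z 0 s) u ≤
      Z b s u * ∏ γ ∈ Finset.range b, (1 - lam γ s) +
        EE Y b (fun u => ∑ γ ∈ Finset.range b, ell γ s u) u := by
    intro s hs b
    induction b with
    | zero =>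
      intro _ u
      show Z 0 s u ≤ Z 0 s u * 1 + 0
      linarith
    | succ b ih =>
      intro hb u
      have ih' := ih (by omega)
      have e1 : EE Y (b + 1) (fun u => ∑ γ ∈ Finset.range (b + 1), ell γ s u) u =
          Av Y b (EE Y b (fun u => ∑ γ ∈ Finset.range b, ell γ s u)) u + ell b s u := by
        have e2 : (fun u => ∑ γ ∈ Finset.range (b + 1), ell γ s u) =
            fun u => (∑ γ ∈ Finset.range b, ell γ s u) + ell b s u := by
          funext u; rw [Finset.sum_range_succ]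
        rw [e2, EE_add]
        have e3 : EE Y (b + 1) (fun u => ell b s u) = fun u => ell b s u :=
          EE_indep hY (b + 1) (fun i hi u t => hellind b s u i t (by omega))
        show EE Y (b + 1) (fun u => ∑ γ ∈ Finset.range b, ell γ s u) u +
          EE Y (b + 1) (fun u => ell b s u) u = _
        rw [e3]
        rfl
      rw [e1]
      calc EE Y (b + 1) (Z 0 s) u = Av Y b (EE Y b (Z 0 s)) u := rfl
        _ ≤ Av Y b (fun u => (∏ γ ∈ Finset.range b, (1 - lam γ s)) * Z b s u +
              EE Y b (fun u => ∑ γ ∈ Finset.range b, ell γ s u) u) u :=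
            Av_mono (fun u => by rw [mul_comm]; exact ih' u) u
        _ = (∏ γ ∈ Finset.range b, (1 - lam γ s)) * Av Y b (Z b s) u +
              Av Y b (EE Y b (fun u => ∑ γ ∈ Finset.range b, ell γ s u)) u := by
            rw [Av_add, Av_mul]
        _ ≤ (∏ γ ∈ Finset.range b, (1 - lam γ s)) * (Z (b + 1) s u * (1 - lam b s) + ell b s u) +
              Av Y b (EE Y b (fun u => ∑ γ ∈ Finset.range b, ell γ s u)) u := by
            have := step b (by omega) s hs u
            have h3 := hprod0 b s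
            gcongr
        _ ≤ Z (b + 1) s u * ∏ γ ∈ Finset.range (b + 1), (1 - lam γ s) +
              (Av Y b (EE Y b (fun u => ∑ γ ∈ Finset.range b, ell γ s u)) u + ell b s u) := by
            rw [Finset.prod_range_succ]
            have h3 := hprod0 b s
            have h4 := hprod1 b s
            have h5 := hell0 b s u
            have h6 : (∏ γ ∈ Finset.range b, (1 - lam γ s)) * ell b s u ≤ 1 * ell b s u := by
              gcongr
            nlinarith
  -- conclusion
  obtain ⟨u, hu, hu2, -⟩ := exists_le_EE hY B (fun u => ∑ s ∈ S, Z 0 s u) 0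
  refine ⟨u, hu2, ?_⟩
  have e4 : (∑ s ∈ S, Z 0 s u) = S.card -
      (({s ∈ S | ∃ b < B, H b s u} : Set ℕ).ncard : ℝ) := by
    have e5 : ((({s ∈ S | ∃ b < B, H b s u} : Set ℕ).ncard : ℕ) : ℝ) =
        ∑ s ∈ S, (if ∃ b < B, H b s u then (1 : ℝ) else 0) := by
      rw [Finset.sum_boole, ← Set.ncard_coe_finset]
      congr 2
      ext t
      simp
    rw [e5, Finset.card_eq_sum_ones, Nat.cast_sum, ← Finset.sum_sub_distrib]
    refine Finset.sum_congr rfl fun s _ => ?_
    simp only [Z]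
    have : (∃ γ, 0 ≤ γ ∧ γ < B ∧ H γ s u) ↔ ∃ b < B, H b s u := by
      constructor
      · rintro ⟨γ, _, h3, h4⟩; exact ⟨γ, h3, h4⟩
      · rintro ⟨γ, h3, h4⟩; exact ⟨γ, Nat.zero_le _, h3, h4⟩
    by_cases hh : ∃ b < B, H b s u
    · rw [if_pos (this.2 hh), if_pos hh]; simp
    · rw [if_neg (fun h => hh (this.1 h)), if_neg hh]; simp
  have e6 : EE Y B (fun u => ∑ s ∈ S, Z 0 s u) 0 ≤
      ∑ s ∈ S, ∏ b ∈ Finset.range B, (1 - lam b s) +
        EE Y B (fun u => ∑ s ∈ S, ∑ b ∈ Finset.range B, ell b s u) 0 := by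
    rw [EE_sum B S (fun s => Z 0 s) hY, EE_sum B S (fun s u => ∑ b ∈ Finset.range B, ell b s u) hY]
    simp only
    rw [← Finset.sum_add_distrib]
    refine Finset.sum_le_sum fun s hs => ?_
    refine (main s hs B le_rfl 0).trans ?_
    have h3 := hprod0 B s
    have h4 := hZ1 B s 0
    have h5 := hZ0 B s 0
    have : Z B s 0 * ∏ γ ∈ Finset.range B, (1 - lam γ s) ≤
        1 * ∏ γ ∈ Finset.range B, (1 - lam γ s) := by gcongr
    linarith
  rw [Finset.sum_sub_distrib, Finset.sum_const, nsmul_eq_mul, mul_one]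
  have h7 := hu.trans e6
  rw [e4] at h7
  linarith

end

end Pool.Agent.Lib.MP_0ccce1_co
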