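import Pool.Agent.Lib.MP_0ccce1_co.Coinc
import Pool.Agent.Lib.MP_0ccce1_co.Cover

set_option autoImplicit false

/-! The core estimate. -/

namespace Pool.Agent.Lib.MP_0ccce1_co

variable {L k : ℕ}

open Classical in
/-- Lower bound for the probability of a hit. -/
noncomputable def lam (L k B b s : ℕ) : ℝ :=
  if Cond L k B b s then (L : ℝ) / ((L + 2 * k) * Dt L k b s) else 0

open Classical in
/-- The loss. -/
noncomputable def ell (L k B b s : ℕ) (u : ℕ → ℕ) : ℝ :=
  (if Cond L k B b s then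
      ((Bad L k B (k * k) b s u).card : ℝ) / ((L + 2 * k) * Dt L k b s) else 0) +
    ((L : ℝ) / (k * k) +
      ((Xs L k B (k * k) b s u ∩ Dup L k B (k * k) b u).card : ℝ) / (k * k))

lemma lam_nonneg (B b s : ℕ) : 0 ≤ lam L k B b s := by
  unfold lam
  have := Dt_pos (L := L) (k := k) b s
  split_ifs <;> positivity

lemma lam_le_one (B b s : ℕ) : lam L k B b s ≤ 1 := by
  unfold lam
  have h := Dt_pos (L := L) (k := k) b s
  split_ifs
  · apply div_le_one_of_le₀
    · have h1 : (L : ℝ) ≤ (L + 2 * k) * 1 := by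
        have : (0 : ℝ) ≤ k := by positivity
        linarith
      refine h1.trans ?_
      gcongr
    · positivity
  · norm_num

lemma ell_nonneg (B b s : ℕ) (u : ℕ → ℕ) : 0 ≤ ell L k B b s u := by
  unfold ell
  have := Dt_pos (L := L) (k := k) b s
  split_ifs <;> positivity

lemma ell_indep (B b s : ℕ) (u : ℕ → ℕ) (i t : ℕ) (hi : i ≤ b) :
    ell L k B b s (Function.update u i t) = ell L k B b s u := by
  unfold ell Bad Xs Dup
  rw [cut_update _ _ _ _ _ hi]

lemma Hit_indep (B Y b s : ℕ) (u : ℕ → ℕ) (i t : ℕ) (hi : i < b) :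
    Hit L k B Y b s (Function.update u i t) ↔ Hit L k B Y b s u := by
  unfold Hit
  rw [cut_update _ _ _ _ _ hi.le, Function.update_of_ne (by omega)]

lemma hit_prob (hk : 0 < k) (B b s : ℕ) (u : ℕ → ℕ) :
    (((k * k : ℕ) : ℝ)) * (lam L k B b s - ell L k B b s u) ≤
      (({t ∈ Finset.range (k * k) | Hit L k B (k * k) b s (Function.update u b t)} : Set ℕ).ncard
        : ℝ) := by
  have hk' : (0 : ℝ) < k := by exact_mod_cast hk
  have h1 := card_Xs_le (L := L) hk B (k * k) b s u
  have h1' : ((Xs L k B (k * k) b s u).card : ℝ) ≤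
      (({t ∈ Finset.range (k * k) | Hit L k B (k * k) b s (Function.update u b t)} : Set ℕ).ncard
        : ℝ) + ((Xs L k B (k * k) b s u ∩ Dup L k B (k * k) b u).card : ℝ) := by
    exact_mod_cast h1
  have h2 := card_Xs_ge (L := L) hk B (k * k) b s u
  set X := ((Xs L k B (k * k) b s u).card : ℝ)
  set I := ((Xs L k B (k * k) b s u ∩ Dup L k B (k * k) b u).card : ℝ)
  set Bd := ((Bad L k B (k * k) b s u).card : ℝ) with hBd
  have hBd0 : 0 ≤ Bd := by positivity
  have hD := Dt_pos (L := L) (k := k) b s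
  unfold lam ell
  by_cases hc : Cond L k B b s
  · rw [if_pos hc, if_pos hc]
    push_cast at h2 ⊢
    set q := ((L : ℝ) + 2 * k) * Dt L k b s with hq
    have hq0 : 0 < q := by positivity
    have e : (k : ℝ) * k * (L / q - (Bd / q + (L / (k * k) + I / (k * k)))) =
        (L - Bd) * (k * k / q) - L - I := by
      field_simp
      ring
    have h3 : ((L : ℝ) - Bd) * (k * k / q - 1) = (L - Bd) * (k * k / q) - L + Bd := by ring
    rw [← hBd] 
    rw [e]
    linarith
  · rw [if_neg hc, if_neg hc]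
    have : (0 : ℝ) ≤ (({t ∈ Finset.range (k * k) | Hit L k B (k * k) b s
      (Function.update u b t)} : Set ℕ).ncard : ℝ) := by positivity
    have h3 : (0 : ℝ) ≤ L / (k * k) + I / (k * k) := by positivity
    refine le_trans ?_ this
    push_cast
    nlinarith [mul_nonneg (mul_nonneg hk'.le hk'.le) h3]

lemma sum_inter_le (B Y b : ℕ) (S : Finset ℕ) (u : ℕ → ℕ) :
    ∑ s ∈ S, (Xs L k B Y b s u ∩ Dup L k B Y b u).card ≤ Y * (Dup L k B Y b u).card := by
  classical
  have h1 : ∀ s, (Xs L k B Y b s u ∩ Dup L k B Y b u).card =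
      ∑ x ∈ Dup L k B Y b u, (if x ∈ Xs L k B Y b s u then 1 else 0) := by
    intro s
    rw [Finset.inter_comm, Finset.card_eq_sum_ones, ← Finset.filter_mem_eq_inter,
      Finset.sum_filter]
  simp only [h1]
  rw [Finset.sum_comm]
  calc ∑ x ∈ Dup L k B Y b u, ∑ s ∈ S, (if x ∈ Xs L k B Y b s u then 1 else 0)
      ≤ ∑ _x ∈ Dup L k B Y b u, Y := by
        refine Finset.sum_le_sum fun x _ => ?_
        rw [← Finset.sum_filter, ← Finset.card_eq_sum_ones]
        have hsub : S.filter (fun s => x ∈ Xs L k B Y b s u) ⊆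
            Finset.Ico (pre L k (cut Y b u) x.2.1 x.2.2 - pre L k (cut Y b u) b x.1)
              (pre L k (cut Y b u) x.2.1 x.2.2 + Y - pre L k (cut Y b u) b x.1) := by
          intro s hs
          rw [Finset.mem_filter] at hs
          obtain ⟨-, hs⟩ := hs
          unfold Xs at hs
          rw [Finset.mem_filter] at hs
          rw [Finset.mem_Ico]
          omega
        have := Finset.card_le_card hsub
        rw [Nat.card_Ico] at this
        omega
    _ = Y * (Dup L k B Y b u).card := by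
        rw [Finset.sum_const, smul_eq_mul, mul_comm]

/-- The error term. -/
noncomputable def Err (L k B N : ℕ) : ℝ :=
  B * (B * L * ((2 * k * (L + 2 * k) + 2 * (k * k)) / (L + k))) +
    (N * B * (L / (k * k)) + (B * (3 * (L : ℝ) ^ 2 * (1 + Real.log L) ^ 2) +
      B * ((L : ℝ) * L * (L + 1) * ((1 + Real.log B) / (L + 2 * k) + B / (k * k)))))

lemma Av_STset (hk : 0 < k) (b β : ℕ) (u : ℕ → ℕ) :
    Av (k * k) β (fun u => ((STset L k b β (u β % (k * k))).card : ℝ)) u ≤
      (L : ℝ) * L * (L + 1) * (((β : ℝ) + 1)⁻¹ / (L + 2 * k) + 1 / (k * k)) := by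
  unfold Av
  have hk' : (0 : ℝ) < k := by exact_mod_cast hk
  have h1 : ∑ t ∈ Finset.range (k * k),
      ((STset L k b β ((Function.update u β t) β % (k * k))).card : ℝ) =
      ((∑ t ∈ Finset.range (k * k), (STset L k b β t).card : ℕ) : ℝ) := by
    push_cast
    refine Finset.sum_congr rfl fun t ht => ?_
    rw [Function.update_self, Nat.mod_eq_of_lt (Finset.mem_range.1 ht)]
  rw [h1]
  push_cast
  rw [div_le_iff₀ (by positivity)]
  have h2 : ((∑ t ∈ Finset.range (k * k), (STset L k b β t).card : ℕ) : ℝ) ≤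
      ((L * (L * ((L + 1) * ((k * k) / ((β + 1) * (L + 2 * k)) + 1))) : ℕ) : ℝ) := by
    exact_mod_cast sum_STset hk b β (k * k)
  push_cast at h2
  refine h2.trans ?_
  have h3 : (((k * k) / ((β + 1) * (L + 2 * k)) : ℕ) : ℝ) ≤
      (k : ℝ) * k / (((β : ℝ) + 1) * (L + 2 * k)) := by
    have := Nat.cast_div_le (α := ℝ) (m := k * k) (n := (β + 1) * (L + 2 * k))
    push_cast at this
    exact this
  calc (L : ℝ) * (L * ((L + 1) * ((((k * k) / ((β + 1) * (L + 2 * k)) : ℕ) : ℝ) + 1)))
      ≤ (L : ℝ) * (L * ((L + 1) * ((k : ℝ) * k / (((β : ℝ) + 1) * (L + 2 * k)) + 1))) := by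
        gcongr
    _ = (L : ℝ) * L * (L + 1) * (((β : ℝ) + 1)⁻¹ / (L + 2 * k) + 1 / (k * k)) * (k * k) := by
        field_simp

/-- The core estimate. -/
theorem core (hk : 0 < k) (B : ℕ) (S : Finset ℕ) :
    ∃ u : ℕ → ℕ,
      ∑ s ∈ S, (1 - ∏ b ∈ Finset.range B, (1 - lam L k B b s)) - Err L k B S.card ≤
      (({s ∈ S | ∃ b < B, Hit L k B (k * k) b s u} : Set ℕ).ncard : ℝ) := by
  classical
  have hk' : (0 : ℝ) < k := by exact_mod_cast hk
  have hY : 0 < k * k := Nat.mul_pos hk hk
  obtain ⟨u, -, hu⟩ := cover hY B S (fun b s u => Hit L k B (k * k) b s u)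
    (fun b s u i t hi => Hit_indep B (k * k) b s u i t hi) (lam L k B)
    (fun b s => lam_le_one B b s) (fun b s => lam_nonneg B b s) (ell L k B)
    (fun b s u => ell_nonneg B b s u) (fun b s u i t hi => ell_indep B b s u i t hi)
    (fun b _ s _ u => hit_prob hk B b s u)
  refine ⟨u, le_trans ?_ hu⟩
  -- bound of the expected loss
  suffices hE : EE (k * k) B (fun u => ∑ s ∈ S, ∑ b ∈ Finset.range B, ell L k B b s u) 0 ≤
      Err L k B S.card by linarith
  let G : ℕ → ℕ → (ℕ → ℕ) → ℝ := fun b β u => ((STset L k b β (u β % (k * k))).card : ℝ)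
  let C1 : ℝ := B * (B * L * ((2 * k * (L + 2 * k) + 2 * (k * k)) / (L + k))) +
    (S.card * B * (L / (k * k)) + (B * (3 * (L : ℝ) ^ 2 * (1 + Real.log L) ^ 2)))
  have hpt : ∀ u, ∑ s ∈ S, ∑ b ∈ Finset.range B, ell L k B b s u ≤
      C1 + ∑ b ∈ Finset.range B, ∑ β ∈ Finset.Ioo b B, G b β u := by
    intro u
    rw [Finset.sum_comm]
    have hb : ∀ b ∈ Finset.range B, ∑ s ∈ S, ell L k B b s u ≤
        (B : ℝ) * L * ((2 * k * (L + 2 * k) + 2 * (k * k)) / (L + k)) +
        (S.card * (L / (k * k)) + (3 * (L : ℝ) ^ 2 * (1 + Real.log L) ^ 2)) +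
        ∑ β ∈ Finset.Ioo b B, G b β u := by
      intro b _
      unfold ell
      rw [Finset.sum_add_distrib, Finset.sum_add_distrib, Finset.sum_const, nsmul_eq_mul]
      have h1 := bad_sum (L := L) hk B b S u
      have h2 : ∑ s ∈ S, ((Xs L k B (k * k) b s u ∩ Dup L k B (k * k) b u).card : ℝ) / (k * k) ≤
          ((Dup L k B (k * k) b u).card : ℝ) := by
        rw [← Finset.sum_div, div_le_iff₀ (by positivity)]
        have := sum_inter_le (L := L) (k := k) B (k * k) b S u
        have h3 : ((∑ s ∈ S, (Xs L k B (k * k) b s u ∩ Dup L k B (k * k) b u).card : ℕ) : ℝ) ≤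
          ((k * k * (Dup L k B (k * k) b u).card : ℕ) : ℝ) := by exact_mod_cast this
        push_cast at h3
        linarith
      have h4 : ((Dup L k B (k * k) b u).card : ℝ) ≤ ((SBset L k B b).card : ℝ) +
          ∑ β ∈ Finset.Ioo b B, G b β u := by
        have := card_Dup_le (L := L) hk B (k * k) b u
        have h5 : ((Dup L k B (k * k) b u).card : ℝ) ≤ (((SBset L k B b).card +
          ∑ β ∈ Finset.Ioo b B, (STset L k b β (u β % (k * k))).card : ℕ) : ℝ) := by
          exact_mod_cast this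
        push_cast at h5
        exact h5
      have h6 := card_SBset_le (L := L) hk B b
      linarith
    refine (Finset.sum_le_sum hb).trans ?_
    rw [Finset.sum_add_distrib, Finset.sum_const, Finset.card_range, nsmul_eq_mul]
    simp only [C1]
    apply add_le_add_left
    exact le_of_eq (by ring)
  refine (EE_mono B hpt 0).trans ?_
  have e1 : EE (k * k) B (fun u => C1 + ∑ b ∈ Finset.range B, ∑ β ∈ Finset.Ioo b B, G b β u) 0 =
      C1 + ∑ b ∈ Finset.range B, ∑ β ∈ Finset.Ioo b B, EE (k * k) B (G b β) 0 := by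
    rw [EE_add, EE_const hY, EE_sum B _ (fun b u => ∑ β ∈ Finset.Ioo b B, G b β u) hY]
    simp only
    congr 1
    refine Finset.sum_congr rfl fun b _ => ?_
    rw [EE_sum B _ (fun β u => G b β u) hY]
  rw [e1]
  have hST : ∀ b ∈ Finset.range B, ∑ β ∈ Finset.Ioo b B, EE (k * k) B (G b β) 0 ≤
      (L : ℝ) * L * (L + 1) * ((1 + Real.log B) / (L + 2 * k) + B / (k * k)) := by
    intro b _
    have h1 : ∀ β ∈ Finset.Ioo b B, EE (k * k) B (G b β) 0 ≤
        (L : ℝ) * L * (L + 1) * (((β : ℝ) + 1)⁻¹ / (L + 2 * k) + 1 / (k * k)) := by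
      intro β hβ
      rw [Finset.mem_Ioo] at hβ
      apply EE_le_of_Av_le hY hβ.2 (F := G b β)
      · intro i hi u t
        simp only [G]
        rw [Function.update_of_ne (by omega)]
      · intro u
        exact Av_STset hk b β u
    refine (Finset.sum_le_sum h1).trans ?_
    rw [← Finset.mul_sum, Finset.sum_add_distrib, ← Finset.sum_div]
    have h2 : ∑ β ∈ Finset.Ioo b B, ((β : ℝ) + 1)⁻¹ ≤ 1 + Real.log B := by
      have h3 : ∑ β ∈ Finset.Ioo b B, ((β : ℝ) + 1)⁻¹ ≤ ∑ β ∈ Finset.range B, ((β : ℝ) + 1)⁻¹ := by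
        apply Finset.sum_le_sum_of_subset_of_nonneg
        · intro x hx
          rw [Finset.mem_Ioo] at hx
          exact Finset.mem_range.2 hx.2
        · intros; positivity
      refine h3.trans ?_
      have h4 := harmonic_le_one_add_log B
      unfold harmonic at h4
      push_cast at h4
      exact h4
    have h5 : ∑ _β ∈ Finset.Ioo b B, (1 : ℝ) / (k * k) ≤ B / (k * k) := by
      rw [Finset.sum_const, Nat.card_Ioo, nsmul_eq_mul]
      have : ((B - b - 1 : ℕ) : ℝ) ≤ B := by exact_mod_cast (by omega : B - b - 1 ≤ B)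
      rw [mul_one_div]
      gcongr
    gcongr
  have h7 := Finset.sum_le_sum hST
  rw [Finset.sum_const, Finset.card_range, nsmul_eq_mul] at h7
  unfold Err
  simp only [C1]
  linarith

end Pool.Agent.Lib.MP_0ccce1_co
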