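import Pool.Agent.Lib.MP_0ccce1_co.Constr

set_option autoImplicit false

/-! Hits, and a lower bound for their number over one shift. -/

namespace Pool.Agent.Lib.MP_0ccce1_co

/-- The shifts with index larger than `b`. -/
def cut (Y b : ℕ) (u : ℕ → ℕ) (i : ℕ) : ℕ := if i ≤ b then 0 else u i % Y

lemma cut_update (Y b : ℕ) (u : ℕ → ℕ) (i t : ℕ) (hi : i ≤ b) :
    cut Y b (Function.update u i t) = cut Y b u := by
  funext j
  unfold cut
  by_cases hj : j ≤ b
  · rw [if_pos hj, if_pos hj]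
  · rw [if_neg hj, if_neg hj, Function.update_of_ne (by omega)]

/-- The value `s` is a difference of prefix sums starting in the block `b` and ending in a later
block. -/
def Hit (L k B Y b s : ℕ) (u : ℕ → ℕ) : Prop :=
  ∃ h β h', h < L ∧ b < β ∧ β < B ∧ h' ≤ L ∧
    pre L k (cut Y b u) β h' + u b % Y = pre L k (cut Y b u) b h + s

variable {L k : ℕ}

lemma pre_eq (u : ℕ → ℕ) (b h : ℕ) :
    pre L k u b h = pre L k (fun _ => 0) b h + ∑ γ ∈ Finset.range b, u γ := by
  unfold pre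
  simp only [add_zero]
  rw [Finset.sum_add_distrib (g := u)]
  ring

lemma sum_cut (Y b : ℕ) (u : ℕ → ℕ) (β : ℕ) (h : b < β) :
    ∑ γ ∈ Finset.range β, u γ % Y = ∑ γ ∈ Finset.range b, u γ % Y + u b % Y +
      ∑ γ ∈ Finset.range β, cut Y b u γ := by
  have h1 : ∑ γ ∈ Finset.range (b + 1), cut Y b u γ = 0 := by
    apply Finset.sum_eq_zero
    intro i hi
    rw [Finset.mem_range] at hi
    unfold cut
    rw [if_pos (by omega)]
  rw [← Finset.sum_range_add_sum_Ico (fun γ => u γ % Y) (show b + 1 ≤ β from h),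
    ← Finset.sum_range_add_sum_Ico (cut Y b u) (show b + 1 ≤ β from h), h1, zero_add,
    Finset.sum_range_succ]
  congr 1
  refine Finset.sum_congr rfl fun i hi => ?_
  rw [Finset.mem_Ico] at hi
  unfold cut
  rw [if_neg (by omega)]

lemma sum_cut_self (Y b : ℕ) (u : ℕ → ℕ) : ∑ γ ∈ Finset.range b, cut Y b u γ = 0 := by
  apply Finset.sum_eq_zero
  intro i hi
  rw [Finset.mem_range] at hi
  unfold cut
  rw [if_pos (by omega)]

lemma Hit.mem {B Y b s : ℕ} {u : ℕ → ℕ} (hk : 0 < k) (hH : Hit L k B Y b s u) :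
    s ∈ consecutiveSums (fun i : Fin (B * (L + k)) => aseq L k (fun i => u i % Y) i) := by
  obtain ⟨h, β, h', h1, h2, h3, h4, h5⟩ := hH
  have e1 : (b + 1) * (L + k) ≤ β * (L + k) := Nat.mul_le_mul_right _ h2
  have e2 : (β + 1) * (L + k) ≤ B * (L + k) := Nat.mul_le_mul_right _ h3
  have e3 : (b + 1) * (L + k) = b * (L + k) + (L + k) := by ring
  have e4 : (β + 1) * (L + k) = β * (L + k) + (L + k) := by ring
  refine mem_consecutiveSums (B * (L + k)) (aseq L k (fun i => u i % Y)) (b * (L + k) + h)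
    (β * (L + k) + h') (by omega) (by omega) s ?_
  rw [sum_prefix hk _ _ _ h4, sum_prefix hk _ _ _ h1.le, pre_eq _ β, pre_eq _ b,
    sum_cut Y b u β h2]
  rw [pre_eq _ β, pre_eq _ b, sum_cut_self] at h5
  omega

lemma pre_succ (u : ℕ → ℕ) (β h : ℕ) :
    pre L k u β (h + 1) = pre L k u β h + (β * (L + 2 * k) + (h + 1)) := by
  unfold pre
  rw [tri_succ]
  ring

lemma pre_mono (u : ℕ → ℕ) (β : ℕ) : Monotone (pre L k u β) :=
  monotone_nat_of_le_succ fun h => by rw [pre_succ]; omega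

lemma aseq_pos (u : ℕ → ℕ) (i : ℕ) : 0 < aseq L k u i := by unfold aseq; omega

/-- Lexicographic strict monotonicity. -/
lemma pre_lt (hk : 0 < k) (u : ℕ → ℕ) {β h β' h' : ℕ} (hh : h ≤ L) (hh' : h' ≤ L)
    (hlt : β < β' ∨ (β = β' ∧ h < h')) : pre L k u β h < pre L k u β' h' := by
  rw [← sum_prefix hk u β h hh, ← sum_prefix hk u β' h' hh']
  have h1 : β * (L + k) + h < β' * (L + k) + h' := by
    rcases hlt with h2 | ⟨rfl, h2⟩
    · have e1 : (β + 1) * (L + k) ≤ β' * (L + k) := Nat.mul_le_mul_right _ h2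
      have e3 : (β + 1) * (L + k) = β * (L + k) + (L + k) := by ring
      omega
    · omega
  exact Finset.sum_lt_sum_of_subset (Finset.range_mono h1.le) (Finset.mem_range.2 h1) (by simp)
    (aseq_pos u _) (fun _ _ _ => Nat.zero_le _)

lemma pre_inj (hk : 0 < k) (u : ℕ → ℕ) {β h β' h' : ℕ} (hh : h ≤ L) (hh' : h' ≤ L)
    (he : pre L k u β h = pre L k u β' h') : β = β' ∧ h = h' := by
  rcases lt_trichotomy β β' with h1 | h1 | h1
  · exact absurd he (pre_lt hk u hh hh' (Or.inl h1)).ne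
  · subst h1
    rcases lt_trichotomy h h' with h2 | h2 | h2
    · exact absurd he (pre_lt hk u hh hh' (Or.inr ⟨rfl, h2⟩)).ne
    · exact ⟨rfl, h2⟩
    · exact absurd he (pre_lt hk u hh' hh (Or.inr ⟨rfl, h2⟩)).ne'
  · exact absurd he (pre_lt hk u hh' hh (Or.inl h1)).ne'

/-- Number of values of a slowly growing function in a window. -/
lemma gapcount (f : ℕ → ℕ) (D N a Y : ℕ) (hD : 0 < D) (hmono : Monotone f)
    (hstep : ∀ i < N, f (i + 1) ≤ f i + D) (h0 : f 0 + Y ≤ a) (hN : a ≤ f N) :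
    Y / D ≤ ((Finset.range (N + 1)).filter (fun i => f i ≤ a ∧ a < f i + Y)).card := by
  classical
  set i1 := Nat.findGreatest (fun i => f i ≤ a) N with hi1
  have h1 : f i1 ≤ a := Nat.findGreatest_spec (P := fun i => f i ≤ a) (Nat.zero_le N) (by omega)
  have h2 : i1 ≤ N := Nat.findGreatest_le N
  have h3 : a < f i1 + D := by
    rcases eq_or_lt_of_le h2 with h4 | h4
    · rw [h4] at h1 ⊢; omega
    · have h5 : ¬ f (i1 + 1) ≤ a :=
        Nat.findGreatest_is_greatest (P := fun i => f i ≤ a) (Nat.lt_succ_self i1) h4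
      have := hstep i1 h4
      omega
  have hdrop : ∀ j, j ≤ i1 → f i1 ≤ f (i1 - j) + j * D := by
    intro j
    induction j with
    | zero => intro _; simp
    | succ j ih =>
      intro hj
      have h4 := ih (by omega)
      have h5 := hstep (i1 - (j + 1)) (by omega)
      have h6 : i1 - (j + 1) + 1 = i1 - j := by omega
      rw [h6] at h5
      have : (j + 1) * D = j * D + D := by ring
      omega
  have hlt : Y / D ≤ i1 + 1 := by
    by_contra hcon
    push Not at hcon
    have h4 : (i1 + 1 + 1) * D ≤ Y := by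
      calc (i1 + 1 + 1) * D ≤ (Y / D) * D := Nat.mul_le_mul_right _ hcon
        _ ≤ Y := Nat.div_mul_le_self Y D
    have h5 := hdrop i1 le_rfl
    rw [Nat.sub_self] at h5
    have : (i1 + 1 + 1) * D = i1 * D + D + D := by ring
    omega
  calc Y / D = (Finset.range (Y / D)).card := (Finset.card_range _).symm
    _ ≤ _ := by
      apply Finset.card_le_card_of_injOn (fun j => i1 - j)
      · intro j hj
        rw [Finset.mem_coe, Finset.mem_range] at hj
        rw [Finset.mem_coe, Finset.mem_filter, Finset.mem_range]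
        have h4 := hdrop j (by omega)
        have h5 : f (i1 - j) ≤ f i1 := hmono (Nat.sub_le _ _)
        have h6 : (j + 1) * D ≤ Y := by
          calc (j + 1) * D ≤ (Y / D) * D := Nat.mul_le_mul_right _ hj
            _ ≤ Y := Nat.div_mul_le_self Y D
        have : (j + 1) * D = j * D + D := by ring
        show i1 - j < N + 1 ∧ f (i1 - j) ≤ a ∧ a < f (i1 - j) + Y
        refine ⟨by omega, by omega, by omega⟩
      · intro i hi j hj hij
        rw [Finset.mem_coe, Finset.mem_range] at hi hj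
        simp only at hij
        omega

/-- All pairs of places considered for the block `b`. -/
def Tri (L B b : ℕ) : Finset (ℕ × ℕ × ℕ) :=
  Finset.range L ×ˢ (Finset.Ioo b B ×ˢ Finset.range (L + 1))

lemma mem_Tri {B b : ℕ} (x : ℕ × ℕ × ℕ) :
    x ∈ Tri L B b ↔ x.1 < L ∧ (b < x.2.1 ∧ x.2.1 < B) ∧ x.2.2 ≤ L := by
  unfold Tri
  rw [Finset.mem_product, Finset.mem_product, Finset.mem_range, Finset.mem_Ioo, Finset.mem_range]
  constructor
  · rintro ⟨h1, h2, h3⟩; exact ⟨h1, h2, by omega⟩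
  · rintro ⟨h1, h2, h3⟩; exact ⟨h1, h2, by omega⟩

open Classical in
/-- The pairs relevant for `s`. -/
noncomputable def Xs (L k B Y b s : ℕ) (u : ℕ → ℕ) : Finset (ℕ × ℕ × ℕ) :=
  (Tri L B b).filter (fun x => pre L k (cut Y b u) x.2.1 x.2.2 ≤ pre L k (cut Y b u) b x.1 + s ∧
    pre L k (cut Y b u) b x.1 + s < pre L k (cut Y b u) x.2.1 x.2.2 + Y)

open Classical in
/-- The duplicated pairs. -/
noncomputable def Dup (L k B Y b : ℕ) (u : ℕ → ℕ) : Finset (ℕ × ℕ × ℕ) :=
  (Tri L B b).filter (fun x => ∃ x' ∈ Tri L B b, x'.1 < x.1 ∧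
    pre L k (cut Y b u) x'.2.1 x'.2.2 + pre L k (cut Y b u) b x.1 =
      pre L k (cut Y b u) x.2.1 x.2.2 + pre L k (cut Y b u) b x'.1)

/-- The number of hits is at least the number of non-duplicated pairs. -/
lemma card_Xs_le (hk : 0 < k) (B Y b s : ℕ) (u : ℕ → ℕ) :
    (Xs L k B Y b s u).card ≤
      ({t ∈ Finset.range Y | Hit L k B Y b s (Function.update u b t)} : Set ℕ).ncard +
        (Xs L k B Y b s u ∩ Dup L k B Y b u).card := by
  classical
  rw [← Finset.card_sdiff_add_card_inter (Xs L k B Y b s u) (Dup L k B Y b u)]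
  apply Nat.add_le_add_right
  rw [← Set.ncard_coe_finset]
  set v := cut Y b u with hv
  apply Set.ncard_le_ncard_of_injOn (fun x => pre L k v b x.1 + s - pre L k v x.2.1 x.2.2)
  · intro x hx
    rw [Finset.mem_coe, Finset.mem_sdiff] at hx
    obtain ⟨hx1, -⟩ := hx
    unfold Xs at hx1
    rw [Finset.mem_filter, mem_Tri] at hx1
    obtain ⟨⟨h1, h2, h3⟩, h4, h5⟩ := hx1
    rw [← hv] at h4 h5
    have hlt : pre L k v b x.1 + s - pre L k v x.2.1 x.2.2 < Y := by omega
    refine ⟨Finset.mem_coe.2 (Finset.mem_range.2 hlt), ?_⟩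
    refine ⟨x.1, x.2.1, x.2.2, h1, h2.1, h2.2, h3, ?_⟩
    rw [cut_update Y b u b _ le_rfl, Function.update_self, ← hv, Nat.mod_eq_of_lt hlt]
    omega
  · intro x hx x' hx' hxx
    rw [Finset.mem_coe, Finset.mem_sdiff] at hx hx'
    obtain ⟨hx1, hx2⟩ := hx
    obtain ⟨hx1', hx2'⟩ := hx'
    unfold Xs at hx1 hx1'
    rw [Finset.mem_filter] at hx1 hx1'
    obtain ⟨hT, h4, h5⟩ := hx1
    obtain ⟨hT', h4', h5'⟩ := hx1'
    rw [← hv] at h4 h5 h4' h5'
    simp only at hxx
    have hval : pre L k v x'.2.1 x'.2.2 + pre L k v b x.1 =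
        pre L k v x.2.1 x.2.2 + pre L k v b x'.1 := by omega
    have hM := (mem_Tri (L := L) (B := B) (b := b) x).1 hT
    have hM' := (mem_Tri (L := L) (B := B) (b := b) x').1 hT'
    rcases lt_trichotomy x.1 x'.1 with h6 | h6 | h6
    · exfalso
      apply hx2'
      unfold Dup
      rw [Finset.mem_filter]
      exact ⟨hT', x, hT, h6, hval.symm⟩
    · rw [h6] at hval
      have h7 : x'.2.1 = x.2.1 ∧ x'.2.2 = x.2.2 := pre_inj hk v hM'.2.2 hM.2.2 (by omega)
      exact Prod.ext h6 (Prod.ext h7.1.symm h7.2.symm)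
    · exfalso
      apply hx2
      unfold Dup
      rw [Finset.mem_filter]
      exact ⟨hT, x', hT', h6, hval⟩

end Pool.Agent.Lib.MP_0ccce1_co
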