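import Pool.Agent.Lib.MP_0ccce1_co.Count

set_option autoImplicit false

/-! Lower bound for the number of pairs with value in a window. -/

namespace Pool.Agent.Lib.MP_0ccce1_co

variable {L k : ℕ}

lemma pre_next (u : ℕ → ℕ) (β : ℕ) : pre L k u (β + 1) 0 =
    pre L k u β 0 + ((L + k) * (β * (L + 2 * k)) + tri (L + k) + u β) := by
  unfold pre
  rw [Finset.sum_range_succ]
  ring

lemma two_pre_ge (u : ℕ → ℕ) (β : ℕ) : ((L + k) * β) ^ 2 ≤ 2 * pre L k u β 0 := by
  induction β with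
  | zero => simp
  | succ β ih =>
    rw [pre_next]
    have h1 := two_tri (L + k)
    have h2 : (L + k) * (β * (L + k)) ≤ (L + k) * (β * (L + 2 * k)) := by
      gcongr; omega
    nlinarith

lemma two_pre0_le (hk : 0 < k) (b : ℕ) :
    2 * pre L k (fun _ => 0) b 0 ≤ (b * (L + 2 * k)) ^ 2 := by
  induction b with
  | zero => simp [pre, tri]
  | succ b ih =>
    rw [pre_next]
    have h1 := two_tri (L + k)
    have h2 : (L + k) * (b * (L + 2 * k)) ≤ (L + 2 * k) * (b * (L + 2 * k)) := by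
      gcongr; omega
    have h3 : (L + k) * (L + k + 1) ≤ (L + 2 * k) * (L + 2 * k) :=
      Nat.mul_le_mul (by omega) (by omega)
    nlinarith

lemma tri_mono : Monotone tri := monotone_nat_of_le_succ fun n => by rw [tri_succ]; omega

lemma two_pre_le (hk : 0 < k) (b h : ℕ) (hh : h ≤ L) :
    2 * pre L k (fun _ => 0) b h ≤ ((b + 1) * (L + 2 * k)) ^ 2 := by
  refine le_trans ?_ (two_pre0_le hk (b + 1))
  rw [pre_next]
  have h1 : tri h ≤ tri (L + k) := tri_mono (by omega)
  have h2 : h * (b * (L + 2 * k)) ≤ (L + k) * (b * (L + 2 * k)) := by gcongr; omega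
  have h3 : pre L k (fun _ => 0) b h = pre L k (fun _ => 0) b 0 + (h * (b * (L + 2 * k)) + tri h) := by
    unfold pre
    simp [tri]
  rw [h3]
  omega

lemma pre_cut_self (Y b : ℕ) (u : ℕ → ℕ) (h : ℕ) :
    pre L k (cut Y b u) b h = pre L k (fun _ => 0) b h := by
  rw [pre_eq, sum_cut_self, add_zero]

open Classical in
/-- The starting places for which the window is not inside a block. -/
noncomputable def Bad (L k B Y b s : ℕ) (u : ℕ → ℕ) : Finset ℕ :=
  (Finset.range L).filter (fun h => ¬ ∃ β, b < β ∧ β < B ∧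
    pre L k (cut Y b u) β 0 + Y ≤ pre L k (cut Y b u) b h + s ∧
    pre L k (cut Y b u) b h + s ≤ pre L k (cut Y b u) β L)

/-- Upper bound for the number of blocks below the window. -/
noncomputable def Dt (L k b s : ℕ) : ℝ :=
  √((((b : ℝ) + 1) * (L + 2 * k)) ^ 2 + 2 * s) / (L + k) + 1

lemma Dt_ge (hk : 0 < k) {Y b s h β : ℕ} {u : ℕ → ℕ} (hh : h ≤ L)
    (hle : pre L k (cut Y b u) β 0 ≤ pre L k (cut Y b u) b h + s) :
    (β : ℝ) + 1 ≤ Dt L k b s := by
  unfold Dt
  have h1 := two_pre_ge (L := L) (k := k) (cut Y b u) β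
  have h2 := two_pre_le (L := L) hk b h hh
  rw [pre_cut_self] at hle
  have h3 : ((L + k) * β) ^ 2 ≤ ((b + 1) * (L + 2 * k)) ^ 2 + 2 * s := by omega
  have h4 : (((L : ℝ) + k) * β) ^ 2 ≤ (((b : ℝ) + 1) * (L + 2 * k)) ^ 2 + 2 * s := by
    exact_mod_cast h3
  have h5 : ((L : ℝ) + k) * β ≤ √((((b : ℝ) + 1) * (L + 2 * k)) ^ 2 + 2 * s) := Real.le_sqrt_of_sq_le h4
  have h6 : (0 : ℝ) < (L : ℝ) + k := by positivity
  have h7 : (β : ℝ) ≤ √((((b : ℝ) + 1) * (L + 2 * k)) ^ 2 + 2 * s) / (L + k) := by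
    rw [le_div_iff₀ h6]
    linarith
  linarith

lemma Dt_pos (b s : ℕ) : 1 ≤ Dt L k b s := by
  unfold Dt
  have : 0 ≤ √((((b : ℝ) + 1) * (L + 2 * k)) ^ 2 + 2 * s) / (L + k) := by positivity
  linarith

/-- Lower bound for the number of relevant pairs. -/
lemma card_Xs_ge (hk : 0 < k) (B Y b s : ℕ) (u : ℕ → ℕ) :
    ((L : ℝ) - (Bad L k B Y b s u).card) * (Y / ((L + 2 * k) * Dt L k b s) - 1) ≤
      ((Xs L k B Y b s u).card : ℝ) := by
  classical
  set v := cut Y b u with hv
  have hfib : (Xs L k B Y b s u).card =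
      ∑ h ∈ Finset.range L, ((Xs L k B Y b s u).filter (fun x => x.1 = h)).card := by
    apply Finset.card_eq_sum_card_fiberwise
    intro x hx
    rw [Finset.mem_coe] at hx
    unfold Xs at hx
    rw [Finset.mem_filter, mem_Tri] at hx
    exact Finset.mem_coe.2 (Finset.mem_range.2 hx.1.1)
  have hgood : ∀ h ∈ Finset.range L \ Bad L k B Y b s u,
      (Y : ℝ) / ((L + 2 * k) * Dt L k b s) - 1 ≤
        (((Xs L k B Y b s u).filter (fun x => x.1 = h)).card : ℝ) := by
    intro h hh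
    rw [Finset.mem_sdiff, Finset.mem_range] at hh
    obtain ⟨hhL, hnb⟩ := hh
    unfold Bad at hnb
    rw [Finset.mem_filter, not_and, not_not] at hnb
    obtain ⟨β, h1, h2, h3, h4⟩ := hnb (Finset.mem_range.2 hhL)
    rw [← hv] at h3 h4
    have hβ : (β : ℝ) + 1 ≤ Dt L k b s :=
      Dt_ge (Y := Y) (u := u) hk hhL.le (by rw [← hv]; omega)
    have hD : 0 < β * (L + 2 * k) + L := by
      have : 0 < β * (L + 2 * k) := Nat.mul_pos (by omega) (by omega)
      omega
    have hg := gapcount (pre L k v β) (β * (L + 2 * k) + L) L (pre L k v b h + s) Y hD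
      (pre_mono v β) (fun i hi => by rw [pre_succ]; omega) h3 h4
    have hcard : ((Finset.range (L + 1)).filter (fun i => pre L k v β i ≤ pre L k v b h + s ∧
        pre L k v b h + s < pre L k v β i + Y)).card ≤
        ((Xs L k B Y b s u).filter (fun x => x.1 = h)).card := by
      apply Finset.card_le_card_of_injOn (fun i => (h, β, i))
      · intro i hi
        rw [Finset.mem_coe, Finset.mem_filter, Finset.mem_range] at hi
        rw [Finset.mem_coe, Finset.mem_filter]
        unfold Xs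
        rw [Finset.mem_filter, mem_Tri, ← hv]
        exact ⟨⟨⟨hhL, ⟨h1, h2⟩, by simp only; omega⟩, hi.2.1, hi.2.2⟩, rfl⟩
      · intro i _ j _ hij
        exact (Prod.ext_iff.1 (Prod.ext_iff.1 hij).2).2
    have h5 : (Y : ℝ) / ((L + 2 * k) * Dt L k b s) ≤ (Y : ℝ) / ((β * (L + 2 * k) + L : ℕ) : ℝ) := by
      have hDr : (0 : ℝ) < ((β * (L + 2 * k) + L : ℕ) : ℝ) := by exact_mod_cast hD
      gcongr
      push_cast
      have h6 : ((L : ℝ) + 2 * k) * (β + 1) ≤ ((L : ℝ) + 2 * k) * Dt L k b s := by gcongr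
      have h7 : (0 : ℝ) ≤ k := by positivity
      nlinarith
    have h6 : (Y : ℝ) / ((β * (L + 2 * k) + L : ℕ) : ℝ) - 1 ≤ ((Y / (β * (L + 2 * k) + L) : ℕ) : ℝ) := by
      have := Nat.lt_floor_add_one ((Y : ℝ) / ((β * (L + 2 * k) + L : ℕ) : ℝ))
      rw [Nat.floor_div_eq_div] at this
      linarith
    have h7 : ((Y / (β * (L + 2 * k) + L) : ℕ) : ℝ) ≤
        (((Xs L k B Y b s u).filter (fun x => x.1 = h)).card : ℝ) := by
      exact_mod_cast hg.trans hcard
    linarith
  have hsub : Bad L k B Y b s u ⊆ Finset.range L := by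
    unfold Bad; exact Finset.filter_subset _ _
  have hcard2 : ((Finset.range L \ Bad L k B Y b s u).card : ℝ) = L - (Bad L k B Y b s u).card := by
    rw [Finset.card_sdiff_of_subset hsub, Finset.card_range, Nat.cast_sub]
    have := Finset.card_le_card hsub
    rwa [Finset.card_range] at this
  calc ((L : ℝ) - (Bad L k B Y b s u).card) * (Y / ((L + 2 * k) * Dt L k b s) - 1)
      = ∑ h ∈ Finset.range L \ Bad L k B Y b s u, ((Y : ℝ) / ((L + 2 * k) * Dt L k b s) - 1) := by
        rw [Finset.sum_const, nsmul_eq_mul, hcard2]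
    _ ≤ ∑ h ∈ Finset.range L \ Bad L k B Y b s u,
        (((Xs L k B Y b s u).filter (fun x => x.1 = h)).card : ℝ) := Finset.sum_le_sum hgood
    _ ≤ ∑ h ∈ Finset.range L, (((Xs L k B Y b s u).filter (fun x => x.1 = h)).card : ℝ) := by
        apply Finset.sum_le_sum_of_subset_of_nonneg Finset.sdiff_subset
        intros; positivity
    _ = ((Xs L k B Y b s u).card : ℝ) := by
        rw [hfib]; push_cast; rfl

end Pool.Agent.Lib.MP_0ccce1_co
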