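import Mathlib

set_option autoImplicit false

/-! Definitions for MP_0ccce1_co. -/

namespace Pool.Agent.Lib.MP_0ccce1_co

/-- The set `S(a)` of the consecutive sums `a_i + a_{i+1} + ⋯ + a_j` (`i ≤ j`) of a finite
sequence `a` of length `k`. -/
def consecutiveSums {k : ℕ} (a : Fin k → ℕ) : Set ℕ :=
  {s | ∃ i j : Fin k, i ≤ j ∧ s = ∑ u ∈ Finset.Icc i j, a u}

/-- `M n` is the maximum of `|S(a)|` over all strictly increasing finite sequences `a`, of
arbitrary length `k ≥ 1`, with all terms in `{1, …, n}`. -/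
noncomputable def M (n : ℕ) : ℕ :=
  sSup {m | ∃ (k : ℕ) (a : Fin k → ℕ), 1 ≤ k ∧ StrictMono a ∧ (∀ i, 1 ≤ a i ∧ a i ≤ n) ∧
    m = (consecutiveSums a).ncard}

end Pool.Agent.Lib.MP_0ccce1_co
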