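import Pool.Agent.Lib.MP_0ccce1_co.Analytic

set_option autoImplicit false

/-! The lower bound for `M n`. -/

namespace Pool.Agent.Lib.MP_0ccce1_co

open Filter Topology

lemma integral_quarter : ∫ x in (0 : ℝ)..1, √(1 - x ^ 2) = Real.pi / 4 := by
  have h1 : ∫ x in (-1 : ℝ)..1, √(1 - x ^ 2) = Real.pi / 2 := integral_sqrt_one_sub_sq
  have hint : ∀ a b : ℝ, IntervalIntegrable (fun x : ℝ => √(1 - x ^ 2)) MeasureTheory.volume a b :=
    fun a b => (Continuous.intervalIntegrable (by fun_prop) a b)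
  have h2 := intervalIntegral.integral_add_adjacent_intervals (hint (-1) 0) (hint 0 1)
  have h3 : ∫ x in (-1 : ℝ)..0, √(1 - x ^ 2) = ∫ x in (0 : ℝ)..1, √(1 - x ^ 2) := by
    have := intervalIntegral.integral_comp_neg (a := 0) (b := 1) (fun x : ℝ => √(1 - x ^ 2))
    simp only [neg_sq, neg_zero] at this
    exact this.symm
  rw [h3, h1] at h2
  linarith

lemma sqrt_sum (m : ℕ) (hm : 0 < m) :
    (m : ℝ) * (Real.pi / 4) ≤ ∑ i ∈ Finset.range m, √(1 - ((i : ℝ) / m) ^ 2) := by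
  have hm' : (0 : ℝ) < m := by exact_mod_cast hm
  have hanti : AntitoneOn (fun x : ℝ => √(1 - (x / m) ^ 2)) (Set.Icc (0 : ℝ) (0 + m)) := by
    intro x hx y hy hxy
    simp only
    apply Real.sqrt_le_sqrt
    have h0 := hx.1
    have : x / m ≤ y / m := by gcongr
    have h1 : 0 ≤ x / m := by positivity
    have := pow_le_pow_left₀ h1 this 2
    linarith
  have h := hanti.integral_le_sum
  simp only [zero_add] at h
  have h2 : ∫ x in (0 : ℝ)..m, √(1 - (x / m) ^ 2) = m * (Real.pi / 4) := by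
    rw [intervalIntegral.integral_comp_div (fun x => √(1 - x ^ 2)) hm'.ne', zero_div,
      div_self hm'.ne', integral_quarter, smul_eq_mul]
  rw [h2] at h
  exact h

/-- The fraction of covered shifts. -/
noncomputable def ff (q s : ℕ) : ℝ :=
  1 - ∏ b ∈ Finset.range (q ^ 2), (1 - lam (q ^ 6 - 2 * q ^ 5) (q ^ 5) (q ^ 2) b s)

lemma ff_nonneg (q s : ℕ) : 0 ≤ ff q s := by
  unfold ff
  have h1 : ∀ i, lam (q ^ 6 - 2 * q ^ 5) (q ^ 5) (q ^ 2) i s ≤ 1 := fun i => lam_le_one _ i s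
  have h0 : ∀ i, 0 ≤ lam (q ^ 6 - 2 * q ^ 5) (q ^ 5) (q ^ 2) i s := fun i => lam_nonneg _ i s
  have : ∏ b ∈ Finset.range (q ^ 2), (1 - lam (q ^ 6 - 2 * q ^ 5) (q ^ 5) (q ^ 2) b s) ≤ 1 := by
    apply Finset.prod_le_one
    · intro i _; linarith [h1 i]
    · intro i _; linarith [h0 i]
  linarith

/-- The values of the limiting density. -/
noncomputable def AA (t : ℝ) : ℝ := 1 - (1 - √(1 - t ^ 2)) / t

lemma AA_bounds {t : ℝ} (h0 : 0 < t) (h1 : t < 1) : 0 ≤ AA t ∧ AA t ≤ 1 := by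
  unfold AA
  have h2 : 0 < 1 - t ^ 2 := by nlinarith
  have h3 : √(1 - t ^ 2) ≤ 1 := by
    rw [Real.sqrt_le_one]
    nlinarith
  have h4 : 1 - t ≤ √(1 - t ^ 2) := by
    apply Real.le_sqrt_of_sq_le
    nlinarith
  constructor
  · have : (1 - √(1 - t ^ 2)) / t ≤ 1 := by
      rw [div_le_one h0]; linarith
    linarith
  · have : 0 ≤ (1 - √(1 - t ^ 2)) / t := div_nonneg (by linarith) h0.le
    linarith

/-- The cell boundaries. -/
def TT (m q j : ℕ) : ℕ := (j ^ 2 * q ^ 16) / (2 * m ^ 2)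

lemma TT_mono (m q : ℕ) : Monotone (TT m q) := by
  intro i j hij
  unfold TT
  gcongr

lemma sum_cells (f : ℕ → ℝ) (T : ℕ → ℕ) (hT : Monotone T) (h0 : T 0 = 0) (n : ℕ) :
    ∑ s ∈ Finset.range (T n), f s = ∑ j ∈ Finset.range n, ∑ s ∈ Finset.Ico (T j) (T (j + 1)), f s := by
  induction n with
  | zero => simp [h0]
  | succ n ih =>
    rw [Finset.sum_range_succ, ← ih, Finset.sum_range_add_sum_Ico f (hT (Nat.le_succ n))]

lemma main_sum (m : ℕ) (hm : 2 ≤ m) {η : ℝ} (hη : 0 < η) :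
    ∀ᶠ q : ℕ in atTop, (Real.pi / 4 - 1 / 2 - 1 / m - η) * (q : ℝ) ^ 16 - m - 2 * (q : ℝ) ^ 14 ≤
      ∑ s ∈ Finset.range (q ^ 16), ff q s := by
  have hm' : (0 : ℝ) < m := by positivity
  have hev : ∀ᶠ q : ℕ in atTop, ∀ j ∈ Finset.range (m - 1), ∀ s : ℕ, 2 * q ^ 14 ≤ s →
      2 * (s : ℝ) ≤ (((j : ℝ) + 1) / m) ^ 2 * (q : ℝ) ^ 16 →
      ∏ b ∈ Finset.range (q ^ 2), (1 - lam (q ^ 6 - 2 * q ^ 5) (q ^ 5) (q ^ 2) b s) ≤
        (1 - √(1 - (((j : ℝ) + 1) / m) ^ 2)) / (((j : ℝ) + 1) / m) + η := by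
    rw [Filter.eventually_all_finset]
    intro j hj
    rw [Finset.mem_range] at hj
    apply prod_eventually (by positivity) _ hη
    rw [div_lt_one hm']
    exact_mod_cast (by omega : j + 1 < m)
  filter_upwards [hev, eventually_ge_atTop 1] with q hq hq1
  have hqr : (1 : ℝ) ≤ q := by exact_mod_cast hq1
  set T := TT m q with hT
  have hTm : Monotone T := TT_mono m q
  have hT0 : T 0 = 0 := by rw [hT]; unfold TT; simp
  have hTle : T (m - 1) ≤ q ^ 16 := by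
    rw [hT]; unfold TT
    apply Nat.div_le_of_le_mul
    have : (m - 1) ^ 2 ≤ 2 * m ^ 2 := by
      have : (m - 1) ^ 2 ≤ m ^ 2 := Nat.pow_le_pow_left (by omega) 2
      omega
    exact Nat.mul_le_mul_right _ this
  have hTub : ∀ j, 2 * (T j : ℝ) ≤ ((j : ℝ) / m) ^ 2 * (q : ℝ) ^ 16 := by
    intro j
    have h1 : (T j : ℝ) ≤ ((j ^ 2 * q ^ 16 : ℕ) : ℝ) / ((2 * m ^ 2 : ℕ) : ℝ) := by
      rw [hT]; unfold TT; exact Nat.cast_div_le
    push_cast at h1
    calc 2 * (T j : ℝ) ≤ 2 * ((j : ℝ) ^ 2 * (q : ℝ) ^ 16 / (2 * (m : ℝ) ^ 2)) := by linarith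
      _ = _ := by field_simp
  have hTlb : ∀ j : ℕ, ((j : ℝ) / m) ^ 2 * (q : ℝ) ^ 16 / 2 - 1 ≤ (T j : ℝ) := by
    intro j
    have h1 := Nat.lt_floor_add_one (((j ^ 2 * q ^ 16 : ℕ) : ℝ) / ((2 * m ^ 2 : ℕ) : ℝ))
    rw [Nat.floor_div_eq_div] at h1
    push_cast at h1
    have h2 : (((j ^ 2 * q ^ 16) / (2 * m ^ 2) : ℕ) : ℝ) = (T j : ℝ) := by rw [hT]; rfl
    rw [h2] at h1
    have h3 : ((j : ℝ) / m) ^ 2 * (q : ℝ) ^ 16 / 2 = (j : ℝ) ^ 2 * (q : ℝ) ^ 16 / (2 * (m : ℝ) ^ 2) := by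
      field_simp
    rw [h3]
    linarith
  -- lower bound on cells
  have hcell : ∀ j ∈ Finset.range (m - 1), ∀ s ∈ Finset.Ico (T j) (T (j + 1)),
      AA (((j : ℝ) + 1) / m) - η - (if s < 2 * q ^ 14 then 1 else 0) ≤ ff q s := by
    intro j hj s hs
    rw [Finset.mem_Ico] at hs
    have hj' := Finset.mem_range.1 hj
    have ht1 : ((j : ℝ) + 1) / m < 1 := by
      rw [div_lt_one hm']
      exact_mod_cast (by omega : j + 1 < m)
    have hA := AA_bounds (t := ((j : ℝ) + 1) / m) (by positivity) ht1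
    split_ifs with hsmall
    · have := ff_nonneg q s
      linarith
    · have h1 := hTub (j + 1)
      push_cast at h1
      have h2 : (s : ℝ) ≤ T (j + 1) := by exact_mod_cast hs.2.le
      have h3 := hq j hj s (by omega) (by linarith)
      unfold ff AA
      linarith
  have h1 : ∑ s ∈ Finset.range (T (m - 1)), ff q s ≤ ∑ s ∈ Finset.range (q ^ 16), ff q s :=
    Finset.sum_le_sum_of_subset_of_nonneg (Finset.range_mono hTle) (fun i _ _ => ff_nonneg q i)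
  have h2 : ∑ j ∈ Finset.range (m - 1), ∑ s ∈ Finset.Ico (T j) (T (j + 1)),
      (AA (((j : ℝ) + 1) / m) - η - (if s < 2 * q ^ 14 then 1 else 0)) ≤
      ∑ s ∈ Finset.range (T (m - 1)), ff q s := by
    rw [sum_cells (ff q) T hTm hT0]
    exact Finset.sum_le_sum fun j hj => Finset.sum_le_sum fun s hs => hcell j hj s hs
  have h3 : ∑ j ∈ Finset.range (m - 1), ∑ s ∈ Finset.Ico (T j) (T (j + 1)),
      (AA (((j : ℝ) + 1) / m) - η - (if s < 2 * q ^ 14 then 1 else 0)) =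
      ∑ j ∈ Finset.range (m - 1), ((T (j + 1) : ℝ) - T j) * (AA (((j : ℝ) + 1) / m) - η) -
      ∑ s ∈ Finset.range (T (m - 1)), (if s < 2 * q ^ 14 then (1 : ℝ) else 0) := by
    rw [sum_cells (fun s => if s < 2 * q ^ 14 then (1 : ℝ) else 0) T hTm hT0,
      ← Finset.sum_sub_distrib]
    refine Finset.sum_congr rfl fun j _ => ?_
    rw [Finset.sum_sub_distrib, Finset.sum_const, Nat.card_Ico, nsmul_eq_mul,
      Nat.cast_sub (hTm (Nat.le_succ j))]
  have h4 : ∑ s ∈ Finset.range (T (m - 1)), (if s < 2 * q ^ 14 then (1 : ℝ) else 0) ≤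
      2 * (q : ℝ) ^ 14 := by
    rw [← Finset.sum_filter, Finset.sum_const, nsmul_eq_mul, mul_one]
    have hsub : (Finset.range (T (m - 1))).filter (fun s => s < 2 * q ^ 14) ⊆
        Finset.range (2 * q ^ 14) := by
      intro s hs
      rw [Finset.mem_filter] at hs
      exact Finset.mem_range.2 hs.2
    have := Finset.card_le_card hsub
    rw [Finset.card_range] at this
    exact_mod_cast this
  -- the main term
  have h5 : ∀ j ∈ Finset.range (m - 1),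
      (q : ℝ) ^ 16 / 2 * ((2 * j + 1) / (m : ℝ) ^ 2 - 2 / m * (1 - √(1 - (((j : ℝ) + 1) / m) ^ 2))) -
        1 - η * ((T (j + 1) : ℝ) - T j) ≤
      ((T (j + 1) : ℝ) - T j) * (AA (((j : ℝ) + 1) / m) - η) := by
    intro j hj
    have hj' := Finset.mem_range.1 hj
    have ht0 : 0 < ((j : ℝ) + 1) / m := by positivity
    have ht1 : ((j : ℝ) + 1) / m < 1 := by
      rw [div_lt_one hm']
      exact_mod_cast (by omega : j + 1 < m)
    have hA := AA_bounds ht0 ht1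
    have e1 := hTlb (j + 1)
    have e2 := hTub j
    push_cast at e1
    have e3 : (2 * (j : ℝ) + 1) / (m : ℝ) ^ 2 * ((q : ℝ) ^ 16 / 2) - 1 ≤ (T (j + 1) : ℝ) - T j := by
      have : (2 * (j : ℝ) + 1) / (m : ℝ) ^ 2 * ((q : ℝ) ^ 16 / 2) =
          (((j : ℝ) + 1) / m) ^ 2 * (q : ℝ) ^ 16 / 2 - ((j : ℝ) / m) ^ 2 * (q : ℝ) ^ 16 / 2 := by
        field_simp; ring
      rw [this]
      linarith
    have e4 : ((2 * (j : ℝ) + 1) / (m : ℝ) ^ 2 * ((q : ℝ) ^ 16 / 2) - 1) * AA (((j : ℝ) + 1) / m) ≤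
        ((T (j + 1) : ℝ) - T j) * AA (((j : ℝ) + 1) / m) :=
      mul_le_mul_of_nonneg_right e3 hA.1
    have e5 : (2 * j + 1) / (m : ℝ) ^ 2 - 2 / m * (1 - √(1 - (((j : ℝ) + 1) / m) ^ 2)) ≤
        (2 * (j : ℝ) + 1) / (m : ℝ) ^ 2 * AA (((j : ℝ) + 1) / m) := by
      unfold AA
      set r := 1 - √(1 - (((j : ℝ) + 1) / m) ^ 2) with hr
      have hr0 : 0 ≤ r := by
        have : √(1 - (((j : ℝ) + 1) / m) ^ 2) ≤ 1 := by
          rw [Real.sqrt_le_one]
          have : 0 ≤ (((j : ℝ) + 1) / m) ^ 2 := by positivity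
          linarith
        linarith
      have e6 : (2 * (j : ℝ) + 1) / (m : ℝ) ^ 2 * (r / (((j : ℝ) + 1) / m)) =
          ((2 * (j : ℝ) + 1) / ((j : ℝ) + 1)) * (r / m) := by
        field_simp
      have e7 : (2 * (j : ℝ) + 1) / ((j : ℝ) + 1) ≤ 2 := by
        rw [div_le_iff₀ (by positivity)]; linarith
      have e8 : ((2 * (j : ℝ) + 1) / ((j : ℝ) + 1)) * (r / m) ≤ 2 * (r / m) := by gcongr
      have e9 : 2 / (m : ℝ) * r = 2 * (r / m) := by ring
      have e10 : (2 * (j : ℝ) + 1) / (m : ℝ) ^ 2 * (1 - r / (((j : ℝ) + 1) / m)) =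
          (2 * (j : ℝ) + 1) / (m : ℝ) ^ 2 -
            (2 * (j : ℝ) + 1) / (m : ℝ) ^ 2 * (r / (((j : ℝ) + 1) / m)) := by ring
      rw [e10, e6, e9]
      linarith
    have hq16 : (0 : ℝ) ≤ (q : ℝ) ^ 16 / 2 := by positivity
    have e10 := mul_le_mul_of_nonneg_left e5 hq16
    nlinarith
  have h6 := Finset.sum_le_sum h5
  rw [Finset.sum_sub_distrib, Finset.sum_sub_distrib, Finset.sum_const, Finset.card_range,
    nsmul_eq_mul, mul_one, ← Finset.mul_sum, ← Finset.mul_sum, Finset.sum_sub_distrib,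
    ← Finset.mul_sum, Finset.sum_sub_distrib, Finset.sum_const, Finset.card_range, nsmul_eq_mul,
    mul_one, ← Finset.sum_div] at h6
  have h7 : ∑ j ∈ Finset.range (m - 1), ((T (j + 1) : ℝ) - T j) = T (m - 1) := by
    rw [Finset.sum_range_sub (fun j => (T j : ℝ)), hT0]; simp
  have h8 : ∑ j ∈ Finset.range (m - 1), (2 * (j : ℝ) + 1) = ((m : ℝ) - 1) ^ 2 := by
    have : ∀ n : ℕ, ∑ j ∈ Finset.range n, (2 * (j : ℝ) + 1) = (n : ℝ) ^ 2 := by
      intro n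
      induction n with
      | zero => simp
      | succ n ih => rw [Finset.sum_range_succ, ih]; push_cast; ring
    rw [this, Nat.cast_sub (by omega)]
    push_cast; ring
  have h9 : (m : ℝ) * (Real.pi / 4) - 1 ≤
      ∑ j ∈ Finset.range (m - 1), √(1 - (((j : ℝ) + 1) / m) ^ 2) := by
    have h10 := sqrt_sum m (by omega)
    obtain ⟨n, rfl⟩ : ∃ n, m = n + 1 := ⟨m - 1, by omega⟩
    rw [Finset.sum_range_succ'] at h10
    rw [Nat.add_sub_cancel]
    push_cast at h10 ⊢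
    simp only [zero_div, ne_eq, OfNat.ofNat_ne_zero, not_false_eq_true, zero_pow, sub_zero,
      Real.sqrt_one] at h10
    linarith
  have h11 : ((m - 1 : ℕ) : ℝ) = (m : ℝ) - 1 := by
    rw [Nat.cast_sub (by omega)]; push_cast; ring
  rw [h7, h8, h11] at h6
  have h12 : (T (m - 1) : ℝ) ≤ (q : ℝ) ^ 16 := by exact_mod_cast hTle
  have h13 : η * (T (m - 1) : ℝ) ≤ η * (q : ℝ) ^ 16 := by gcongr
  -- numerical evaluation of the bracket
  have h14 : Real.pi / 2 - 1 - 2 / m ≤ ((m : ℝ) - 1) ^ 2 / (m : ℝ) ^ 2 -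
      2 / m * ((m : ℝ) - 1 - ∑ j ∈ Finset.range (m - 1), √(1 - (((j : ℝ) + 1) / m) ^ 2)) := by
    have e1 : ((m : ℝ) - 1) ^ 2 / (m : ℝ) ^ 2 = 1 - 2 / m + 1 / (m : ℝ) ^ 2 := by
      field_simp; ring
    have e2 : 2 / (m : ℝ) * (m * (Real.pi / 4) - 1) ≤ 2 / (m : ℝ) *
        ∑ j ∈ Finset.range (m - 1), √(1 - (((j : ℝ) + 1) / m) ^ 2) := by gcongr
    have e3 : 2 / (m : ℝ) * (m * (Real.pi / 4) - 1) = Real.pi / 2 - 2 / m := by
      field_simp; ring
    have e4 : 2 / (m : ℝ) * ((m : ℝ) - 1 - ∑ j ∈ Finset.range (m - 1),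
        √(1 - (((j : ℝ) + 1) / m) ^ 2)) = 2 - 2 / m - 2 / (m : ℝ) *
        ∑ j ∈ Finset.range (m - 1), √(1 - (((j : ℝ) + 1) / m) ^ 2) := by
      field_simp
    have e5 : 0 ≤ 1 / (m : ℝ) ^ 2 := by positivity
    rw [e1, e4]
    linarith
  have hq16 : (0 : ℝ) ≤ (q : ℝ) ^ 16 / 2 := by positivity
  have h15 := mul_le_mul_of_nonneg_left h14 hq16
  have h16 : (q : ℝ) ^ 16 / 2 * (Real.pi / 2 - 1 - 2 / m) =
      (Real.pi / 4 - 1 / 2 - 1 / m) * (q : ℝ) ^ 16 := by ring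
  rw [h16] at h15
  have h17 : (Real.pi / 4 - 1 / 2 - 1 / m - η) * (q : ℝ) ^ 16 =
      (Real.pi / 4 - 1 / 2 - 1 / m) * (q : ℝ) ^ 16 - η * (q : ℝ) ^ 16 := by ring
  rw [h17]
  linarith

end Pool.Agent.Lib.MP_0ccce1_co
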