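import Pool.Agent.Lib.MP_0ccce1_co.Count2

set_option autoImplicit false

/-! Bounds for the losses. -/

namespace Pool.Agent.Lib.MP_0ccce1_co

variable {L k : ℕ}

lemma tri_diff (L k : ℕ) : tri (L + k) ≤ tri L + k * (L + k) := by
  unfold tri
  rw [Finset.sum_range_add]
  have : ∑ x ∈ Finset.range k, (L + x + 1) ≤ ∑ _x ∈ Finset.range k, (L + k) :=
    Finset.sum_le_sum fun x hx => by rw [Finset.mem_range] at hx; omega
  rw [Finset.sum_const, Finset.card_range, smul_eq_mul] at this
  omega

lemma pre_gap (u : ℕ → ℕ) (β : ℕ) :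
    pre L k u (β + 1) 0 ≤ pre L k u β L + (k * ((β + 1) * (L + 2 * k)) + u β) := by
  rw [pre_next]
  have h1 : pre L k u β L = pre L k u β 0 + (L * (β * (L + 2 * k)) + tri L) := by
    unfold pre
    simp [tri]
  have h2 := tri_diff L k
  rw [h1]
  have h3 : (L + k) * (β * (L + 2 * k)) = L * (β * (L + 2 * k)) + k * (β * (L + 2 * k)) := by ring
  have h4 : k * ((β + 1) * (L + 2 * k)) = k * (β * (L + 2 * k)) + k * (L + 2 * k) := by ring
  have h5 : k * (L + k) ≤ k * (L + 2 * k) := by gcongr; omega
  omega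

/-- The range condition: the pairs of the block `b` with value near `s` are all available. -/
def Cond (L k B b s : ℕ) : Prop :=
  ((b + 1) * (L + 2 * k)) ^ 2 + 2 * s ≤ ((L + k) * (B - 1)) ^ 2 ∧
    (b + 1) * (L + 2 * k) ^ 2 + k * k ≤ s ∧ b + 1 < B

/-- A bad starting place comes from a gap between two blocks. -/
lemma exists_zone (hk : 0 < k) {B b s h : ℕ} {u : ℕ → ℕ} (hc : Cond L k B b s)
    (hh : h ∈ Bad L k B (k * k) b s u) :
    ∃ β, b < β ∧ β + 1 < B ∧
      pre L k (cut (k * k) b u) β L < pre L k (cut (k * k) b u) b h + s ∧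
      pre L k (cut (k * k) b u) b h + s < pre L k (cut (k * k) b u) (β + 1) 0 + k * k := by
  classical
  set v := cut (k * k) b u with hv
  obtain ⟨hc1, hc2, hc3⟩ := hc
  unfold Bad at hh
  rw [Finset.mem_filter, Finset.mem_range, ← hv] at hh
  obtain ⟨hL, hnb⟩ := hh
  push Not at hnb
  -- the predicate
  let Q : ℕ → Prop := fun β => pre L k v β 0 + k * k ≤ pre L k v b h + s
  have hQ0 : Q (b + 1) := by
    show pre L k v (b + 1) 0 + k * k ≤ pre L k v b h + s
    rw [pre_next]
    have h1 : v b = 0 := by rw [hv]; unfold cut; rw [if_pos le_rfl]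
    have h2 : pre L k v b 0 ≤ pre L k v b h := pre_mono v b (Nat.zero_le h)
    have h3 := two_tri (L + k)
    have h4 : (L + k) * (b * (L + 2 * k)) ≤ b * (L + 2 * k) ^ 2 := by
      calc (L + k) * (b * (L + 2 * k)) ≤ (L + 2 * k) * (b * (L + 2 * k)) := by gcongr; omega
        _ = b * (L + 2 * k) ^ 2 := by ring
    have h5 : (L + k) * (L + k + 1) ≤ (L + 2 * k) * (L + 2 * k) :=
      Nat.mul_le_mul (by omega) (by omega)
    have h6 : (b + 1) * (L + 2 * k) ^ 2 = b * (L + 2 * k) ^ 2 + (L + 2 * k) * (L + 2 * k) := by ring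
    rw [h1]
    omega
  set m := Nat.findGreatest Q (B - 1) with hm
  have hm1 : b + 1 ≤ m := Nat.le_findGreatest (by omega) hQ0
  have hm2 : Q m := Nat.findGreatest_spec (P := Q) (m := b + 1) (by omega) hQ0
  have hm3 : m ≤ B - 1 := Nat.findGreatest_le _
  have hm4 := hnb m (by omega) (by omega) hm2
  have hm5 : m ≠ B - 1 := by
    intro he
    rw [he] at hm4
    have h1 := two_pre_ge (L := L) (k := k) v (B - 1)
    have h2 := two_pre_le (L := L) hk b h hL.le
    rw [hv, pre_cut_self, ← hv] at hm4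
    have h3 : pre L k v (B - 1) 0 ≤ pre L k v (B - 1) L := pre_mono v _ (Nat.zero_le L)
    omega
  refine ⟨m, by omega, by omega, hm4, ?_⟩
  have h6 : ¬ Q (m + 1) :=
    Nat.findGreatest_is_greatest (P := Q) (Nat.lt_succ_self m) (by omega)
  show pre L k v b h + s < pre L k v (m + 1) 0 + k * k
  have h7 : ¬ (pre L k v (m + 1) 0 + k * k ≤ pre L k v b h + s) := h6
  omega

/-- In a gap, the density is small. -/
lemma zone_Dt (hk : 0 < k) {Y b s h β : ℕ} {u : ℕ → ℕ} (hh : h ≤ L)
    (hlt : pre L k (cut Y b u) β L < pre L k (cut Y b u) b h + s) :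
    ((L : ℝ) + k) * β ≤ (L + 2 * k) * Dt L k b s := by
  have h1 := two_pre_ge (L := L) (k := k) (cut Y b u) β
  have h2 := two_pre_le (L := L) hk b h hh
  have h0 : pre L k (cut Y b u) β 0 ≤ pre L k (cut Y b u) β L := pre_mono _ β (Nat.zero_le L)
  rw [pre_cut_self] at hlt
  have h3 : ((L + k) * β) ^ 2 ≤ ((b + 1) * (L + 2 * k)) ^ 2 + 2 * s := by omega
  have h4 : (((L : ℝ) + k) * β) ^ 2 ≤ (((b : ℝ) + 1) * (L + 2 * k)) ^ 2 + 2 * s := by
    exact_mod_cast h3
  have h5 : ((L : ℝ) + k) * β ≤ √((((b : ℝ) + 1) * (L + 2 * k)) ^ 2 + 2 * s) := Real.le_sqrt_of_sq_le h4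
  have hk' : (0 : ℝ) < k := by exact_mod_cast hk
  have h6 : (0 : ℝ) < (L : ℝ) + k := by positivity
  unfold Dt
  have h7 : √((((b : ℝ) + 1) * (L + 2 * k)) ^ 2 + 2 * s) ≤
      (L + 2 * k) * (√((((b : ℝ) + 1) * (L + 2 * k)) ^ 2 + 2 * s) / (L + k)) := by
    rw [mul_div_assoc', le_div_iff₀ h6, mul_comm]
    gcongr
    linarith
  have h8 : (0 : ℝ) ≤ (L + 2 * k) := by positivity
  linarith

open Classical in
/-- Total loss from bad starting places. -/
lemma bad_sum (hk : 0 < k) (B b : ℕ) (S : Finset ℕ) (u : ℕ → ℕ) :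
    ∑ s ∈ S, (if Cond L k B b s then
      ((Bad L k B (k * k) b s u).card : ℝ) / ((L + 2 * k) * Dt L k b s) else 0) ≤
      (B : ℝ) * L * ((2 * k * (L + 2 * k) + 2 * (k * k)) / (L + k)) := by
  set v := cut (k * k) b u with hv
  have hk' : (0 : ℝ) < k := by exact_mod_cast hk
  have hκ : (0 : ℝ) < (L : ℝ) + k := by positivity
  let Zn : ℕ → ℕ → ℕ → Prop := fun h β s =>
    pre L k v β L < pre L k v b h + s ∧ pre L k v b h + s < pre L k v (β + 1) 0 + k * k
  -- pointwise bound
  have hpt : ∀ s ∈ S, (if Cond L k B b s then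
      ((Bad L k B (k * k) b s u).card : ℝ) / ((L + 2 * k) * Dt L k b s) else 0) ≤
      ∑ h ∈ Finset.range L, ∑ β ∈ Finset.Ioo b B,
        (if Zn h β s then 1 / (((L : ℝ) + k) * β) else 0) := by
    intro s _
    split_ifs with hc
    · have hD : 0 < ((L : ℝ) + 2 * k) * Dt L k b s := by
        have := Dt_pos (L := L) (k := k) b s
        positivity
      have e1 : ((Bad L k B (k * k) b s u).card : ℝ) / ((L + 2 * k) * Dt L k b s) =
          ∑ h ∈ Bad L k B (k * k) b s u, 1 / ((L + 2 * k) * Dt L k b s) := by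
        rw [Finset.sum_const, nsmul_eq_mul]; ring
      rw [e1]
      have hsub : Bad L k B (k * k) b s u ⊆ Finset.range L := by
        unfold Bad; exact Finset.filter_subset _ _
      refine le_trans (Finset.sum_le_sum (f := fun h => 1 / ((L + 2 * k) * Dt L k b s))
        (g := fun h => ∑ β ∈ Finset.Ioo b B, (if Zn h β s then 1 / (((L : ℝ) + k) * β) else 0))
        ?_) ?_
      · intro h hh
        obtain ⟨β, h1, h2, h3, h4⟩ := exists_zone hk hc hh
        have hhL := Finset.mem_range.1 (hsub hh)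
        have h5 := zone_Dt hk hhL.le h3
        have hβ : (0 : ℝ) < β := by exact_mod_cast (by omega : 0 < β)
        have h6 : (1 : ℝ) / ((L + 2 * k) * Dt L k b s) ≤
            (if Zn h β s then 1 / (((L : ℝ) + k) * β) else 0) := by
          rw [if_pos ⟨h3, h4⟩]
          exact one_div_le_one_div_of_le (by positivity) h5
        refine h6.trans ?_
        exact Finset.single_le_sum (f := fun β => if Zn h β s then 1 / (((L : ℝ) + k) * β) else 0)
          (fun i _ => by split_ifs <;> positivity) (Finset.mem_Ioo.2 ⟨h1, by omega⟩)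
      · apply Finset.sum_le_sum_of_subset_of_nonneg hsub
        intro h _ _
        exact Finset.sum_nonneg fun i _ => by split_ifs <;> positivity
    · exact Finset.sum_nonneg fun h _ => Finset.sum_nonneg fun i _ => by split_ifs <;> positivity
  refine (Finset.sum_le_sum hpt).trans ?_
  rw [Finset.sum_comm]
  -- for each h and β
  have hhb : ∀ h ∈ Finset.range L, ∑ s ∈ S, ∑ β ∈ Finset.Ioo b B,
      (if Zn h β s then 1 / (((L : ℝ) + k) * β) else 0) ≤
      B * ((2 * k * (L + 2 * k) + 2 * (k * k)) / (L + k)) := by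
    intro h _
    rw [Finset.sum_comm]
    have hβ : ∀ β ∈ Finset.Ioo b B, ∑ s ∈ S, (if Zn h β s then 1 / (((L : ℝ) + k) * β) else 0) ≤
        (2 * k * (L + 2 * k) + 2 * (k * k)) / (L + k) := by
      intro β hβ
      rw [Finset.mem_Ioo] at hβ
      rw [← Finset.sum_filter, Finset.sum_const, nsmul_eq_mul]
      have hcard : (S.filter (fun s => Zn h β s)).card ≤
          k * ((β + 1) * (L + 2 * k)) + 2 * (k * k) := by
        have h1 : S.filter (fun s => Zn h β s) ⊆
            Finset.Ioo (pre L k v β L - pre L k v b h)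
              (pre L k v (β + 1) 0 + k * k - pre L k v b h) ∪
              (if pre L k v β L < pre L k v b h then {0} else ∅) := by
          intro s hs
          rw [Finset.mem_filter] at hs
          obtain ⟨-, h1, h2⟩ := hs
          rw [Finset.mem_union, Finset.mem_Ioo]
          by_cases h3 : pre L k v β L < pre L k v b h
          · rw [if_pos h3]
            by_cases h4 : s = 0
            · right; rw [h4]; simp
            · left; omega
          · left; omega
        have h2 : ¬ (pre L k v β L < pre L k v b h ∧ h ≤ L) := by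
          rintro ⟨h3, h4⟩
          have := pre_lt hk v (h := h) (h' := L) h4 le_rfl (Or.inl hβ.1)
          omega
        by_cases hhL : h ≤ L
        · have h3 : ¬ pre L k v β L < pre L k v b h := fun h3 => h2 ⟨h3, hhL⟩
          rw [if_neg h3, Finset.union_empty] at h1
          have h4 := Finset.card_le_card h1
          rw [Nat.card_Ioo] at h4
          have h5 := pre_gap (L := L) (k := k) v β
          have h6 : v β ≤ k * k := by
            rw [hv]; unfold cut
            split_ifs
            · omega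
            · exact (Nat.mod_lt _ (Nat.mul_pos hk hk)).le
          omega
        · exfalso
          rename_i hh
          exact hhL (Finset.mem_range.1 hh).le
      have hβ0 : (1 : ℝ) ≤ β := by exact_mod_cast (by omega : 1 ≤ β)
      have hcard' : ((S.filter (fun s => Zn h β s)).card : ℝ) ≤
          k * ((β + 1) * (L + 2 * k)) + 2 * (k * k) := by exact_mod_cast hcard
      calc ((S.filter (fun s => Zn h β s)).card : ℝ) * (1 / (((L : ℝ) + k) * β))
          ≤ (k * ((β + 1) * (L + 2 * k)) + 2 * (k * k)) * (1 / (((L : ℝ) + k) * β)) := by gcongr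
        _ ≤ ((2 * k * (L + 2 * k) + 2 * (k * k)) * β) * (1 / (((L : ℝ) + k) * β)) := by
            gcongr
            have : (0 : ℝ) ≤ k * (L + 2 * k) := by positivity
            nlinarith [mul_pos hk' hk']
        _ = (2 * k * (L + 2 * k) + 2 * (k * k)) / (L + k) := by
            field_simp
    refine (Finset.sum_le_sum hβ).trans ?_
    rw [Finset.sum_const, Nat.card_Ioo, nsmul_eq_mul]
    have : ((B - b - 1 : ℕ) : ℝ) ≤ B := by exact_mod_cast (by omega : B - b - 1 ≤ B)
    gcongr
  refine (Finset.sum_le_sum hhb).trans ?_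
  rw [Finset.sum_const, Finset.card_range, nsmul_eq_mul]
  exact le_of_eq (by ring)

end Pool.Agent.Lib.MP_0ccce1_co
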