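import Pool.Agent.Lib.MP_0ccce1_co.Final
import Pool.Agent.Lib.MP_0ccce1_co.Core

set_option autoImplicit false

/-! The lower bound for `M n`: conclusion. -/

namespace Pool.Agent.Lib.MP_0ccce1_co

open Filter Topology

lemma consecutiveSums_subset {K n : ℕ} (a : Fin K → ℕ) (ha : StrictMono a)
    (hn : ∀ i, 1 ≤ a i ∧ a i ≤ n) : consecutiveSums a ⊆ (Finset.range (n * n + 1) : Set ℕ) := by
  rintro s ⟨i, j, -, rfl⟩
  have h1 : ∑ u ∈ Finset.Icc i j, a u ≤ ∑ u, a u :=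
    Finset.sum_le_sum_of_subset (Finset.subset_univ _)
  have h2 : ∑ u, a u ≤ K * n := by
    calc ∑ u, a u ≤ ∑ _u : Fin K, n := Finset.sum_le_sum fun u _ => (hn u).2
      _ = K * n := by simp
  have h3 : K ≤ n := by
    have : (Finset.univ.image a).card ≤ (Finset.Icc 1 n).card := by
      apply Finset.card_le_card
      intro x hx
      rw [Finset.mem_image] at hx
      obtain ⟨i, -, rfl⟩ := hx
      rw [Finset.mem_Icc]
      exact hn i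
    rw [Finset.card_image_of_injective _ ha.injective] at this
    simpa using this
  have h4 : K * n ≤ n * n := Nat.mul_le_mul_right _ h3
  rw [Finset.mem_coe, Finset.mem_range]
  omega

lemma M_ge {K n : ℕ} (hK : 1 ≤ K) (a : Fin K → ℕ) (ha : StrictMono a)
    (hn : ∀ i, 1 ≤ a i ∧ a i ≤ n) : (consecutiveSums a).ncard ≤ M n := by
  apply le_csSup
  · refine ⟨n * n + 1, ?_⟩
    rintro m ⟨k, b, -, hb, hbn, rfl⟩
    have h := consecutiveSums_subset b hb hbn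
    have := Set.ncard_le_ncard h (Finset.finite_toSet _)
    rw [Set.ncard_coe_finset, Finset.card_range] at this
    exact this
  · exact ⟨K, a, hK, ha, hn, rfl⟩

lemma M_mono_bound {q n : ℕ} (hq : 3 ≤ q) (hn : q ^ 8 ≤ n) :
    ∑ s ∈ Finset.range (q ^ 16), ff q s -
      Err (q ^ 6 - 2 * q ^ 5) (q ^ 5) (q ^ 2) (q ^ 16) ≤ (M n : ℝ) := by
  classical
  have hq0 : 0 < q := by omega
  have hk : 0 < q ^ 5 := by positivity
  obtain ⟨u, hu⟩ := core (L := q ^ 6 - 2 * q ^ 5) hk (q ^ 2) (Finset.range (q ^ 16))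
  rw [Finset.card_range] at hu
  have e6 : q ^ 6 = q * q ^ 5 := by ring
  have hL : 2 * q ^ 5 ≤ q ^ 6 := by
    rw [e6]; exact Nat.mul_le_mul_right _ (by omega)
  set L := q ^ 6 - 2 * q ^ 5 with hLdef
  set k := q ^ 5 with hkdef
  set v : ℕ → ℕ := fun i => u i % (k * k) with hv
  have hv' : ∀ i, v i < k * k := fun i => Nat.mod_lt _ (Nat.mul_pos hk hk)
  have hK : 1 ≤ q ^ 2 * (L + k) := by
    have : 0 < q ^ 2 * (L + k) := by positivity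
    omega
  have h1 : (consecutiveSums (fun i : Fin (q ^ 2 * (L + k)) => aseq L k v i)).ncard ≤ M n := by
    apply M_ge hK
    · intro i j hij
      exact aseq_strictMono hk v hv' hij
    · intro i
      refine ⟨aseq_pos v i, ?_⟩
      have h2 := aseq_le (L := L) hk v hv' (q ^ 2) i i.2
      have h3 : L + 2 * k = q ^ 6 := by omega
      rw [h3] at h2
      have h4 : q ^ 2 * q ^ 6 = q ^ 8 := by ring
      omega
  have h2 : ({s ∈ Finset.range (q ^ 16) | ∃ b < q ^ 2, Hit L k (q ^ 2) (k * k) b s u} : Set ℕ).ncard ≤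
      (consecutiveSums (fun i : Fin (q ^ 2 * (L + k)) => aseq L k v i)).ncard := by
    apply Set.ncard_le_ncard
    · rintro s ⟨-, b, -, hb⟩
      exact hb.mem hk
    · apply (Finset.finite_toSet (Finset.range (n * n + 1))).subset
      apply consecutiveSums_subset
      · intro i j hij
        exact aseq_strictMono hk v hv' hij
      · intro i
        refine ⟨aseq_pos v i, ?_⟩
        have h2 := aseq_le (L := L) hk v hv' (q ^ 2) i i.2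
        have h3 : L + 2 * k = q ^ 6 := by omega
        rw [h3] at h2
        have h4 : q ^ 2 * q ^ 6 = q ^ 8 := by ring
        omega
  have h3 : (({s ∈ Finset.range (q ^ 16) | ∃ b < q ^ 2, Hit L k (q ^ 2) (k * k) b s u} : Set ℕ).ncard
      : ℝ) ≤ (M n : ℝ) := by exact_mod_cast h2.trans h1
  exact hu.trans h3

lemma log_le_two_sqrt {x : ℝ} (hx : 0 < x) : Real.log x ≤ 2 * √x := by
  have h1 : Real.log x = 2 * Real.log (√x) := by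
    rw [Real.log_sqrt hx.le]; ring
  rw [h1]
  have := Real.log_le_sub_one_of_pos (Real.sqrt_pos.2 hx)
  linarith

lemma Err_le {q : ℕ} (hq : 3 ≤ q) :
    Err (q ^ 6 - 2 * q ^ 5) (q ^ 5) (q ^ 2) (q ^ 16) ≤ 600 * (q : ℝ) ^ 15 := by
  have hqr : (3 : ℝ) ≤ q := by exact_mod_cast hq
  have hq0 : (0 : ℝ) < q := by linarith
  have hle : 2 * q ^ 5 ≤ q ^ 6 := by
    have e6 : q ^ 6 = q * q ^ 5 := by ring
    rw [e6]; exact Nat.mul_le_mul_right _ (by omega)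
  have hL : (((q ^ 6 - 2 * q ^ 5 : ℕ)) : ℝ) = (q : ℝ) ^ 6 - 2 * (q : ℝ) ^ 5 := by
    rw [Nat.cast_sub hle]; push_cast; ring
  set s := √(q : ℝ) with hs
  have hs0 : 0 ≤ s := Real.sqrt_nonneg _
  have hss : s * s = q := Real.mul_self_sqrt hq0.le
  have hs1 : 1 ≤ s := by
    rw [hs, Real.one_le_sqrt]; linarith
  have hsq : s ≤ q := by nlinarith
  have hlog : Real.log q ≤ 2 * s := log_le_two_sqrt hq0
  have hlog0 : 0 ≤ Real.log q := Real.log_nonneg (by linarith)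
  have p5 : (0 : ℝ) < (q : ℝ) ^ 5 := by positivity
  have hLpos : 0 < (q : ℝ) ^ 6 - 2 * (q : ℝ) ^ 5 := by
    have : (q : ℝ) ^ 6 = q * (q : ℝ) ^ 5 := by ring
    rw [this]; nlinarith
  set L : ℝ := (q : ℝ) ^ 6 - 2 * (q : ℝ) ^ 5 with hLd
  have hL6 : L ≤ (q : ℝ) ^ 6 := by rw [hLd]; linarith
  have hL1 : 1 ≤ L := by
    have : (q : ℝ) ^ 6 = q * (q : ℝ) ^ 5 := by ring
    have h5 : (1 : ℝ) ≤ (q : ℝ) ^ 5 := one_le_pow₀ (by linarith)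
    rw [hLd, this]; nlinarith
  have hlogL : Real.log L ≤ 12 * s := by
    calc Real.log L ≤ Real.log ((q : ℝ) ^ 6) := Real.log_le_log hLpos hL6
      _ = 6 * Real.log q := by rw [Real.log_pow]; norm_num
      _ ≤ 12 * s := by linarith
  have hlogL0 : 0 ≤ Real.log L := Real.log_nonneg hL1
  have hlogB : Real.log ((q : ℝ) ^ 2) ≤ 4 * s := by
    rw [Real.log_pow]; push_cast; linarith
  unfold Err
  push_cast
  rw [hL]
  -- term 1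
  have hden : (q : ℝ) ^ 6 / 2 ≤ L + (q : ℝ) ^ 5 := by
    have : (q : ℝ) ^ 6 = q * (q : ℝ) ^ 5 := by ring
    rw [hLd, this]; nlinarith
  have hL2k : L + 2 * (q : ℝ) ^ 5 = (q : ℝ) ^ 6 := by rw [hLd]; ring
  have t1 : (q : ℝ) ^ 2 * ((q : ℝ) ^ 2 * L * ((2 * (q : ℝ) ^ 5 * (L + 2 * (q : ℝ) ^ 5) +
      2 * ((q : ℝ) ^ 5 * (q : ℝ) ^ 5)) / (L + (q : ℝ) ^ 5))) ≤ 8 * (q : ℝ) ^ 15 := by
    rw [hL2k]
    have h1 : (2 * (q : ℝ) ^ 5 * (q : ℝ) ^ 6 + 2 * ((q : ℝ) ^ 5 * (q : ℝ) ^ 5)) / (L + (q : ℝ) ^ 5) ≤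
        8 * (q : ℝ) ^ 5 := by
      rw [div_le_iff₀ (by linarith)]
      have h2 : 8 * (q : ℝ) ^ 5 * ((q : ℝ) ^ 6 / 2) ≤ 8 * (q : ℝ) ^ 5 * (L + (q : ℝ) ^ 5) := by
        gcongr
      have h3 : 2 * ((q : ℝ) ^ 5 * (q : ℝ) ^ 5) ≤ 2 * ((q : ℝ) ^ 5 * (q : ℝ) ^ 6) := by
        have : (q : ℝ) ^ 5 ≤ (q : ℝ) ^ 6 := pow_le_pow_right₀ (by linarith) (by norm_num)
        gcongr
      have h4 : 8 * (q : ℝ) ^ 5 * ((q : ℝ) ^ 6 / 2) = 4 * ((q : ℝ) ^ 5 * (q : ℝ) ^ 6) := by ring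
      linarith
    calc (q : ℝ) ^ 2 * ((q : ℝ) ^ 2 * L * ((2 * (q : ℝ) ^ 5 * (q : ℝ) ^ 6 +
      2 * ((q : ℝ) ^ 5 * (q : ℝ) ^ 5)) / (L + (q : ℝ) ^ 5)))
        ≤ (q : ℝ) ^ 2 * ((q : ℝ) ^ 2 * (q : ℝ) ^ 6 * (8 * (q : ℝ) ^ 5)) := by gcongr
      _ = 8 * (q : ℝ) ^ 15 := by ring
  have t2 : (q : ℝ) ^ 16 * (q : ℝ) ^ 2 * (L / ((q : ℝ) ^ 5 * (q : ℝ) ^ 5)) ≤ (q : ℝ) ^ 15 := by
    calc (q : ℝ) ^ 16 * (q : ℝ) ^ 2 * (L / ((q : ℝ) ^ 5 * (q : ℝ) ^ 5))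
        ≤ (q : ℝ) ^ 16 * (q : ℝ) ^ 2 * ((q : ℝ) ^ 6 / ((q : ℝ) ^ 5 * (q : ℝ) ^ 5)) := by gcongr
      _ = (q : ℝ) ^ 14 := by field_simp
      _ ≤ (q : ℝ) ^ 15 := pow_le_pow_right₀ (by linarith) (by norm_num)
  have t3 : (q : ℝ) ^ 2 * (3 * L ^ 2 * (1 + Real.log L) ^ 2) ≤ 507 * (q : ℝ) ^ 15 := by
    have h1 : (1 + Real.log L) ^ 2 ≤ 169 * (q : ℝ) := by
      calc (1 + Real.log L) ^ 2 ≤ (13 * s) ^ 2 := by
            apply pow_le_pow_left₀ (by linarith); linarith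
        _ = 169 * (q : ℝ) := by rw [mul_pow, pow_two s, hss]; norm_num
    calc (q : ℝ) ^ 2 * (3 * L ^ 2 * (1 + Real.log L) ^ 2)
        ≤ (q : ℝ) ^ 2 * (3 * ((q : ℝ) ^ 6) ^ 2 * (169 * q)) := by gcongr
      _ = 507 * (q : ℝ) ^ 15 := by ring
  have t4 : (q : ℝ) ^ 2 * (L * L * (L + 1) * ((1 + Real.log ((q : ℝ) ^ 2)) / (L + 2 * (q : ℝ) ^ 5) +
      (q : ℝ) ^ 2 / ((q : ℝ) ^ 5 * (q : ℝ) ^ 5))) ≤ 12 * (q : ℝ) ^ 15 := by
    rw [hL2k]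
    have h1 : (1 + Real.log ((q : ℝ) ^ 2)) / (q : ℝ) ^ 6 ≤ 5 * s / (q : ℝ) ^ 6 := by
      apply div_le_div_of_nonneg_right _ (by positivity)
      linarith
    have h2 : (q : ℝ) ^ 2 / ((q : ℝ) ^ 5 * (q : ℝ) ^ 5) ≤ s / (q : ℝ) ^ 6 := by
      rw [div_le_div_iff₀ (by positivity) (by positivity)]
      calc (q : ℝ) ^ 2 * (q : ℝ) ^ 6 = 1 * (q : ℝ) ^ 8 := by ring
        _ ≤ s * (q : ℝ) ^ 10 := by
          have : (q : ℝ) ^ 8 ≤ (q : ℝ) ^ 10 := pow_le_pow_right₀ (by linarith) (by norm_num)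
          gcongr
        _ = _ := by ring
    have h3 : (1 + Real.log ((q : ℝ) ^ 2)) / (q : ℝ) ^ 6 +
        (q : ℝ) ^ 2 / ((q : ℝ) ^ 5 * (q : ℝ) ^ 5) ≤ 6 * s / (q : ℝ) ^ 6 := by
      have : 6 * s / (q : ℝ) ^ 6 = 5 * s / (q : ℝ) ^ 6 + s / (q : ℝ) ^ 6 := by ring
      linarith
    have h4 : 0 ≤ (1 + Real.log ((q : ℝ) ^ 2)) / (q : ℝ) ^ 6 +
        (q : ℝ) ^ 2 / ((q : ℝ) ^ 5 * (q : ℝ) ^ 5) := by
      have : 0 ≤ Real.log ((q : ℝ) ^ 2) := by rw [Real.log_pow]; push_cast; linarith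
      positivity
    calc _ ≤ (q : ℝ) ^ 2 * ((q : ℝ) ^ 6 * (q : ℝ) ^ 6 * ((q : ℝ) ^ 6 + (q : ℝ) ^ 6) *
          (6 * s / (q : ℝ) ^ 6)) := by
          have : (1 : ℝ) ≤ (q : ℝ) ^ 6 := one_le_pow₀ (by linarith)
          gcongr
      _ = 12 * (q : ℝ) ^ 14 * s := by field_simp; ring
      _ ≤ 12 * (q : ℝ) ^ 14 * q := by gcongr
      _ = 12 * (q : ℝ) ^ 15 := by ring
  have p15 : (0 : ℝ) < (q : ℝ) ^ 15 := by positivity
  linarith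

lemma exists_root (n : ℕ) : (Nat.sqrt (Nat.sqrt (Nat.sqrt n))) ^ 8 ≤ n ∧
    n < (Nat.sqrt (Nat.sqrt (Nat.sqrt n)) + 1) ^ 8 := by
  constructor
  · have h1 := Nat.sqrt_le' (Nat.sqrt (Nat.sqrt n))
    have h2 := Nat.sqrt_le' (Nat.sqrt n)
    have h3 := Nat.sqrt_le' n
    calc (Nat.sqrt (Nat.sqrt (Nat.sqrt n))) ^ 8
        = (((Nat.sqrt (Nat.sqrt (Nat.sqrt n))) ^ 2) ^ 2) ^ 2 := by ring
      _ ≤ ((Nat.sqrt (Nat.sqrt n)) ^ 2) ^ 2 := by gcongr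
      _ ≤ (Nat.sqrt n) ^ 2 := by gcongr
      _ ≤ n := h3
  · have h1 := Nat.lt_succ_sqrt' (Nat.sqrt (Nat.sqrt n))
    have h2 := Nat.lt_succ_sqrt' (Nat.sqrt n)
    have h3 := Nat.lt_succ_sqrt' n
    simp only [Nat.succ_eq_add_one] at h1 h2 h3
    calc n < (Nat.sqrt n + 1) ^ 2 := h3
      _ ≤ ((Nat.sqrt (Nat.sqrt n) + 1) ^ 2) ^ 2 := by gcongr; omega
      _ ≤ (((Nat.sqrt (Nat.sqrt (Nat.sqrt n)) + 1) ^ 2) ^ 2) ^ 2 := by gcongr; omega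
      _ = _ := by ring

lemma tendsto_sqrt_nat : Tendsto Nat.sqrt atTop atTop := by
  rw [tendsto_atTop]
  intro b
  filter_upwards [eventually_ge_atTop (b * b)] with n hn
  exact Nat.le_sqrt.2 hn

lemma tendsto_root : Tendsto (fun n : ℕ => Nat.sqrt (Nat.sqrt (Nat.sqrt n))) atTop atTop :=
  tendsto_sqrt_nat.comp (tendsto_sqrt_nat.comp tendsto_sqrt_nat)

lemma poly_eventually (c δ C : ℝ) (hδ : 0 < δ) :
    ∀ᶠ q : ℕ in atTop, c * ((q : ℝ) + 1) ^ 16 ≤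
      (c + δ) * (q : ℝ) ^ 16 - C - 2 * (q : ℝ) ^ 14 - 600 * (q : ℝ) ^ 15 := by
  have hinv : Tendsto (fun q : ℕ => ((q : ℝ))⁻¹) atTop (𝓝 0) :=
    tendsto_inv_atTop_zero.comp tendsto_natCast_atTop_atTop
  have h1 : Tendsto (fun q : ℕ => c * (1 + (q : ℝ)⁻¹) ^ 16 + C * ((q : ℝ)⁻¹) ^ 16 +
      2 * ((q : ℝ)⁻¹) ^ 2 + 600 * (q : ℝ)⁻¹) atTop (𝓝 (c * (1 + 0) ^ 16 + C * 0 ^ 16 + 2 * 0 ^ 2 +
      600 * 0)) := by
    apply Tendsto.add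
    · apply Tendsto.add
      · apply Tendsto.add
        · exact ((hinv.const_add 1).pow 16).const_mul c
        · exact (hinv.pow 16).const_mul C
      · exact (hinv.pow 2).const_mul 2
    · exact hinv.const_mul 600
  have h2 : c * (1 + 0) ^ 16 + C * 0 ^ 16 + 2 * 0 ^ 2 + 600 * 0 < c + δ := by
    norm_num; exact hδ
  filter_upwards [h1.eventually (gt_mem_nhds h2), eventually_ge_atTop 1] with q hq hq1
  have hqr : (0 : ℝ) < q := by exact_mod_cast hq1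
  have h3 := mul_le_mul_of_nonneg_right hq.le (by positivity : (0 : ℝ) ≤ (q : ℝ) ^ 16)
  have h4 : (c * (1 + (q : ℝ)⁻¹) ^ 16 + C * ((q : ℝ)⁻¹) ^ 16 +
      2 * ((q : ℝ)⁻¹) ^ 2 + 600 * (q : ℝ)⁻¹) * (q : ℝ) ^ 16 =
      c * ((q : ℝ) + 1) ^ 16 + C + 2 * (q : ℝ) ^ 14 + 600 * (q : ℝ) ^ 15 := by
    have e1 : (1 + (q : ℝ)⁻¹) ^ 16 * (q : ℝ) ^ 16 = ((q : ℝ) + 1) ^ 16 := by
      rw [← mul_pow]; congr 1; field_simp
    have e2 : ((q : ℝ)⁻¹) ^ 16 * (q : ℝ) ^ 16 = 1 := by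
      rw [← mul_pow, inv_mul_cancel₀ hqr.ne', one_pow]
    have e3 : ((q : ℝ)⁻¹) ^ 2 * (q : ℝ) ^ 16 = (q : ℝ) ^ 14 := by field_simp
    have e4 : (q : ℝ)⁻¹ * (q : ℝ) ^ 16 = (q : ℝ) ^ 15 := by field_simp
    rw [← e1, ← e3, ← e4]
    have : C = C * (((q : ℝ)⁻¹) ^ 16 * (q : ℝ) ^ 16) := by rw [e2, mul_one]
    linear_combination (-1 : ℝ) * this
  rw [h4] at h3
  linarith

theorem M_lower {ε : ℝ} (hε : 0 < ε) :
    ∃ n₀ : ℕ, ∀ n ≥ n₀, (Real.pi / 4 - 1 / 2 - ε) * (n : ℝ) ^ 2 ≤ (M n : ℝ) := by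
  rcases le_or_gt (Real.pi / 4 - 1 / 2 - ε) 0 with hc | hc
  · refine ⟨0, fun n _ => ?_⟩
    have h1 : (Real.pi / 4 - 1 / 2 - ε) * (n : ℝ) ^ 2 ≤ 0 :=
      mul_nonpos_of_nonpos_of_nonneg hc (by positivity)
    have h2 : (0 : ℝ) ≤ (M n : ℝ) := by positivity
    linarith
  · obtain ⟨m0, hm0⟩ := exists_nat_gt (4 / ε)
    set m := m0 + 2 with hm
    have hm' : (0 : ℝ) < m := by positivity
    have h1m : 1 / (m : ℝ) ≤ ε / 4 := by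
      rw [div_le_div_iff₀ hm' (by norm_num)]
      have h2 : (m0 : ℝ) ≤ m := by exact_mod_cast (by omega : m0 ≤ m)
      rw [div_lt_iff₀ hε] at hm0
      nlinarith
    have ev1 := main_sum m (by omega) (η := ε / 4) (by positivity)
    have ev2 := poly_eventually (Real.pi / 4 - 1 / 2 - ε) (ε / 2) m (by positivity)
    have ev := tendsto_root.eventually (ev1.and (ev2.and (eventually_ge_atTop 3)))
    obtain ⟨n₀, hn₀⟩ := eventually_atTop.1 ev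
    refine ⟨n₀, fun n hn => ?_⟩
    obtain ⟨h1, h2, h3⟩ := hn₀ n hn
    obtain ⟨r1, r2⟩ := exists_root n
    set q := Nat.sqrt (Nat.sqrt (Nat.sqrt n)) with hq
    have h4 := M_mono_bound h3 r1
    have h5 := Err_le h3
    have h6 : (n : ℝ) ^ 2 ≤ ((q : ℝ) + 1) ^ 16 := by
      have : (n : ℝ) ≤ ((q : ℝ) + 1) ^ 8 := by exact_mod_cast r2.le
      calc (n : ℝ) ^ 2 ≤ (((q : ℝ) + 1) ^ 8) ^ 2 := by gcongr
        _ = _ := by ring
    have h7 : (Real.pi / 4 - 1 / 2 - ε) * (n : ℝ) ^ 2 ≤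
        (Real.pi / 4 - 1 / 2 - ε) * ((q : ℝ) + 1) ^ 16 := by gcongr
    have hq16 : (0 : ℝ) ≤ (q : ℝ) ^ 16 := by positivity
    have h8 : (Real.pi / 4 - 1 / 2 - ε + ε / 2) * (q : ℝ) ^ 16 ≤
        (Real.pi / 4 - 1 / 2 - 1 / m - ε / 4) * (q : ℝ) ^ 16 := by
      apply mul_le_mul_of_nonneg_right _ hq16
      linarith
    linarith

end Pool.Agent.Lib.MP_0ccce1_co
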